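import Mathlib

/-!
# Toeplitz operators on the Hardy space `H²` and hypercyclicity: definitions

The unit circle `𝕋` is parametrised by `x ∈ ℝ/ℤ` through `z = e^{2πix}`, and carries the normalised
Lebesgue (Haar) measure.
-/

open MeasureTheory AddCircle Set Filter Topology
open scoped ENNReal

namespace Pool.Agent.Lib.MP_895317_an

/-- The Lebesgue space `L²(𝕋)`. -/
def L2T : Type := Lp ℂ 2 (haarAddCircle : Measure UnitAddCircle)

noncomputable instance : NormedAddCommGroup L2T :=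
  (Lp.instNormedAddCommGroup :
    NormedAddCommGroup (Lp ℂ 2 (haarAddCircle : Measure UnitAddCircle)))

noncomputable instance : InnerProductSpace ℂ L2T :=
  (L2.innerProductSpace : InnerProductSpace ℂ (Lp ℂ 2 (haarAddCircle : Measure UnitAddCircle)))

instance : CompleteSpace L2T :=
  (Lp.instCompleteSpace : CompleteSpace (Lp ℂ 2 (haarAddCircle : Measure UnitAddCircle)))

/-- An element of `L2T` as an element of Mathlib's `Lp` space. -/
def L2T.toLp (f : L2T) : Lp ℂ 2 (haarAddCircle : Measure UnitAddCircle) := f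

/-- The values of a function `f ∈ L²(𝕋)` (defined up to null sets). -/
noncomputable def L2T.val (f : L2T) : UnitAddCircle → ℂ := fun x => f.toLp x

theorem L2T.memLp (f : L2T) : MemLp f.val 2 haarAddCircle :=
  Lp.memLp f.toLp

/-- The class in `L²(𝕋)` of a square integrable function. -/
noncomputable def L2T.mk (f : UnitAddCircle → ℂ) (hf : MemLp f 2 haarAddCircle) : L2T :=
  MemLp.toLp f hf

/-- The monomial `zⁿ` (that is, `x ↦ e^{2πinx}`), as an element of `L²(𝕋)`. -/
noncomputable def monomial (n : ℤ) : L2T := fourierLp 2 n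

/-- The Hardy space `H²`: the closed subspace of `L²(𝕋)` of all functions orthogonal to `zⁿ` for
every `n < 0`, i.e. whose Fourier coefficients of negative index vanish. -/
noncomputable def hardy : Submodule ℂ L2T :=
  (Submodule.span ℂ {g : L2T | ∃ n : ℤ, n < 0 ∧ g = monomial n})ᗮ

/-- The Hardy space `H²` as a Hilbert space. -/
def H2 : Type := hardy

noncomputable instance : NormedAddCommGroup H2 :=
  (Submodule.normedAddCommGroup hardy : NormedAddCommGroup hardy)

noncomputable instance : InnerProductSpace ℂ H2 :=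
  (Submodule.innerProductSpace hardy : InnerProductSpace ℂ hardy)

instance : CompleteSpace hardy := by
  unfold hardy
  infer_instance

instance : CompleteSpace H2 := (inferInstance : CompleteSpace hardy)

/-- The inclusion `H² ⊆ L²(𝕋)`. -/
def H2.incl (f : H2) : L2T := Subtype.val f

/-- The orthogonal projection `P₊` of `L²(𝕋)` onto `H²`. -/
noncomputable def Pplus (f : L2T) : H2 := hardy.orthogonalProjectionOnto f

theorem memLp_mul {ψ : UnitAddCircle → ℂ} (hψ : MemLp ψ ∞ haarAddCircle) (f : L2T) :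
    MemLp (fun x => ψ x * f.val x) 2 haarAddCircle :=
  f.memLp.mul hψ

/-- The product `ψ f` of a bounded function `ψ` and `f ∈ L²(𝕋)`. -/
noncomputable def mulFun (ψ : UnitAddCircle → ℂ) (hψ : MemLp ψ ∞ haarAddCircle) (f : L2T) : L2T :=
  L2T.mk (fun x => ψ x * f.val x) (memLp_mul hψ f)

/-- The Toeplitz operator with symbol `ψ ∈ L^∞(𝕋)` on the Hardy space `H²`, as a map:
`T_ψ f = P₊(ψ f)`, where `P₊` is the orthogonal projection of `L²(𝕋)` onto `H²`. -/
noncomputable def toeplitzFun (ψ : UnitAddCircle → ℂ) (hψ : MemLp ψ ∞ haarAddCircle)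
    (f : H2) : H2 :=
  Pplus (mulFun ψ hψ f.incl)

theorem mulFun_add (ψ : UnitAddCircle → ℂ) (hψ : MemLp ψ ∞ haarAddCircle) (f g : L2T) :
    mulFun ψ hψ (f + g) = mulFun ψ hψ f + mulFun ψ hψ g := by
  apply Lp.ext
  have h1 := (memLp_mul hψ (f + g)).coeFn_toLp
  have h2 := (memLp_mul hψ f).coeFn_toLp
  have h3 := (memLp_mul hψ g).coeFn_toLp
  have h4 := Lp.coeFn_add f.toLp g.toLp
  have h5 := Lp.coeFn_add (mulFun ψ hψ f).toLp (mulFun ψ hψ g).toLp
  filter_upwards [h1, h2, h3, h4, h5] with x h1 h2 h3 h4 h5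
  refine h1.trans ?_
  refine Eq.trans ?_ h5.symm
  refine Eq.trans ?_ (congrArg₂ (· + ·) h2 h3).symm
  have h4' : (f + g).val x = f.val x + g.val x := h4
  rw [h4']
  ring

theorem mulFun_smul (ψ : UnitAddCircle → ℂ) (hψ : MemLp ψ ∞ haarAddCircle) (c : ℂ) (f : L2T) :
    mulFun ψ hψ (c • f) = c • mulFun ψ hψ f := by
  apply Lp.ext
  have h1 := (memLp_mul hψ (c • f)).coeFn_toLp
  have h2 := (memLp_mul hψ f).coeFn_toLp
  have h4 := Lp.coeFn_smul c f.toLp
  have h5 := Lp.coeFn_smul c (mulFun ψ hψ f).toLp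
  filter_upwards [h1, h2, h4, h5] with x h1 h2 h4 h5
  refine h1.trans ?_
  refine Eq.trans ?_ h5.symm
  have h2' : (mulFun ψ hψ f).val x = ψ x * f.val x := h2
  have h4' : (c • f).val x = c • f.val x := h4
  change ψ x * (c • f).val x = c • (mulFun ψ hψ f).val x
  rw [h4', h2', smul_eq_mul, smul_eq_mul]
  ring

theorem norm_mulFun_le (ψ : UnitAddCircle → ℂ) (hψ : MemLp ψ ∞ haarAddCircle) (f : L2T) :
    ‖mulFun ψ hψ f‖ ≤ (eLpNorm ψ ∞ haarAddCircle).toReal * ‖f‖ := by
  have h1 : ‖mulFun ψ hψ f‖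
      = (eLpNorm (fun x => ψ x * f.val x) 2 haarAddCircle).toReal :=
    Lp.norm_toLp _ (memLp_mul hψ f)
  have h2 : ‖f‖ = (eLpNorm f.val 2 haarAddCircle).toReal := rfl
  rw [h1, h2, ← ENNReal.toReal_mul]
  refine ENNReal.toReal_mono (ENNReal.mul_ne_top hψ.eLpNorm_ne_top f.memLp.eLpNorm_ne_top) ?_
  exact eLpNorm_smul_le_mul_eLpNorm (φ := ψ) (f := f.val) f.memLp.1 hψ.1

theorem Pplus_add (f g : L2T) : Pplus (f + g) = Pplus f + Pplus g :=
  map_add hardy.orthogonalProjectionOnto f g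

theorem Pplus_smul (c : ℂ) (f : L2T) : Pplus (c • f) = c • Pplus f :=
  map_smul hardy.orthogonalProjectionOnto c f

theorem norm_Pplus_le (f : L2T) : ‖Pplus f‖ ≤ ‖f‖ :=
  hardy.norm_orthogonalProjectionOnto_apply_le f

theorem toeplitzFun_add (ψ : UnitAddCircle → ℂ) (hψ : MemLp ψ ∞ haarAddCircle) (f g : H2) :
    toeplitzFun ψ hψ (f + g) = toeplitzFun ψ hψ f + toeplitzFun ψ hψ g := by
  have : (f + g).incl = f.incl + g.incl := rfl
  unfold toeplitzFun
  rw [this, mulFun_add, Pplus_add]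

theorem toeplitzFun_smul (ψ : UnitAddCircle → ℂ) (hψ : MemLp ψ ∞ haarAddCircle) (c : ℂ) (f : H2) :
    toeplitzFun ψ hψ (c • f) = c • toeplitzFun ψ hψ f := by
  have : (c • f).incl = c • f.incl := rfl
  unfold toeplitzFun
  rw [this, mulFun_smul, Pplus_smul]

theorem norm_toeplitzFun_le (ψ : UnitAddCircle → ℂ) (hψ : MemLp ψ ∞ haarAddCircle) (f : H2) :
    ‖toeplitzFun ψ hψ f‖ ≤ (eLpNorm ψ ∞ haarAddCircle).toReal * ‖f‖ :=
  (norm_Pplus_le _).trans (norm_mulFun_le ψ hψ f.incl)

/-- The Toeplitz operator `T_ψ f = P₊(ψ f)` as a bounded linear operator on `H²`. -/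
noncomputable def toeplitz (ψ : UnitAddCircle → ℂ) (hψ : MemLp ψ ∞ haarAddCircle) : H2 →L[ℂ] H2 :=
  LinearMap.mkContinuous
    { toFun := toeplitzFun ψ hψ
      map_add' := toeplitzFun_add ψ hψ
      map_smul' := toeplitzFun_smul ψ hψ }
    (eLpNorm ψ ∞ haarAddCircle).toReal (norm_toeplitzFun_le ψ hψ)

/-- A bounded operator `T` on a normed space is hypercyclic if there is a vector `x` whose orbit
`{Tⁿ x : n = 0, 1, 2, ...}` is dense. -/
def IsHypercyclic {X : Type*} [NormedAddCommGroup X] [NormedSpace ℂ X] (T : X →L[ℂ] X) : Prop :=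
  ∃ x : X, Dense (Set.range fun n : ℕ => (T ^ n) x)

/-- The spectrum of a bounded operator `T`: all `lam ∈ ℂ` for which `lam - T` is not invertible in
the algebra of bounded operators (Mathlib's `spectrum`). -/
def opSpectrum {X : Type*} [NormedAddCommGroup X] [NormedSpace ℂ X] (T : X →L[ℂ] X) : Set ℂ :=
  spectrum ℂ T

/-- The function `Φ(z) = γ/z + φ(z)`. -/
noncomputable def symbolFun (γ : ℂ) (φ : ℂ → ℂ) (z : ℂ) : ℂ := γ / z + φ z

/-- `ψ` is the boundary function on `𝕋` of the function `Φ` (given in the disc): for almost every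
point `e^{2πix}` of the circle, `Φ(r e^{2πix}) → ψ(x)` as `r → 1-`. -/
def IsBoundaryFunction (ψ : UnitAddCircle → ℂ) (Φ : ℂ → ℂ) : Prop :=
  ∀ᵐ x ∂(haarAddCircle : Measure UnitAddCircle),
    Tendsto (fun r : ℝ => Φ ((r : ℂ) * fourier 1 x)) (𝓝[<] 1) (𝓝 (ψ x))

end Pool.Agent.Lib.MP_895317_an
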