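import Mathlib
import Pool.Agent.Lib.MP_895317_an.Defs

/-!
# An abstract unilateral shift of multiplicity one and its evaluation functionals
-/

open Set Filter Topology Metric
open scoped ComplexConjugate

namespace Pool.Agent.Lib.MP_895317_an

/-- A unilateral shift `S` of multiplicity one on a Hilbert space, with adjoint (backward shift)
`B` and vacuum vector `e`. -/
structure ShiftData (H : Type*) [NormedAddCommGroup H] [InnerProductSpace ℂ H] where
  S : H →ₗᵢ[ℂ] H
  B : H →L[ℂ] H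
  e : H
  norm_e : ‖e‖ = 1
  BS : ∀ f, B (S f) = f
  SB : ∀ f, S (B f) = f - inner ℂ e f • e
  eS : ∀ f, inner ℂ e (S f) = 0
  pure_shift : ∀ f, (∀ n : ℕ, inner ℂ e ((B ^ n) f) = 0) → f = 0

namespace ShiftData

variable {H : Type*} [NormedAddCommGroup H] [InnerProductSpace ℂ H] [CompleteSpace H]
variable (D : ShiftData H)

omit [CompleteSpace H] in
theorem inner_ee : inner ℂ D.e D.e = 1 := by
  rw [inner_self_eq_norm_sq_to_K, D.norm_e]; norm_num

omit [CompleteSpace H] in
theorem Be : D.B D.e = 0 := by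
  have h := D.SB D.e
  rw [D.inner_ee, one_smul, sub_self] at h
  have : ‖D.S (D.B D.e)‖ = 0 := by rw [h, norm_zero]
  rw [D.S.norm_map] at this
  exact norm_eq_zero.1 this

omit [CompleteSpace H] in
theorem norm_B_sq (f : H) : ‖D.B f‖ ^ 2 = ‖f‖ ^ 2 - ‖inner ℂ D.e f‖ ^ 2 := by
  have h1 : f = D.S (D.B f) + inner ℂ D.e f • D.e := by rw [D.SB]; abel
  have h2 : inner ℂ (D.S (D.B f)) (inner ℂ D.e f • D.e) = 0 := by
    rw [inner_smul_right, ← inner_conj_symm (D.S (D.B f)) D.e, D.eS]; simp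
  have h3 := norm_add_sq_eq_norm_sq_add_norm_sq_of_inner_eq_zero _ _ h2
  rw [← h1, D.S.norm_map, norm_smul, D.norm_e] at h3
  nlinarith

omit [CompleteSpace H] in
theorem norm_B_le (f : H) : ‖D.B f‖ ≤ ‖f‖ := by
  have h := D.norm_B_sq f
  have h2 : 0 ≤ ‖inner ℂ D.e f‖ ^ 2 := by positivity
  exact abs_le_of_sq_le_sq' (by linarith) (norm_nonneg f) |>.2

omit [CompleteSpace H] in
theorem norm_B : ‖D.B‖ ≤ 1 :=
  D.B.opNorm_le_bound zero_le_one fun f => by simpa using D.norm_B_le f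

omit [CompleteSpace H] in
theorem adjoint_BS (f g : H) : inner ℂ (D.B f) g = inner ℂ f (D.S g) := by
  rw [← D.S.inner_map_map, D.SB, inner_sub_left, inner_smul_left, D.eS]
  simp

/-- The resolvent-like operator `(1 - z B)⁻¹`. -/
noncomputable def res (z : ℂ) : H →L[ℂ] H := Ring.inverse (1 - z • D.B)

theorem isUnit_one_sub {z : ℂ} (hz : ‖z‖ < 1) : IsUnit (1 - z • D.B) := by
  have : ‖z • D.B‖ < 1 := by
    rw [norm_smul]
    calc ‖z‖ * ‖D.B‖ ≤ ‖z‖ * 1 := by gcongr; exact D.norm_B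
    _ < 1 := by simpa using hz
  exact (Units.oneSub (z • D.B) this).isUnit

theorem res_right {z : ℂ} (hz : ‖z‖ < 1) (f : H) : D.res z f - z • D.B (D.res z f) = f := by
  have h := Ring.mul_inverse_cancel _ (D.isUnit_one_sub hz)
  have h2 := congrArg (fun A : H →L[ℂ] H => A f) h
  simpa [res, sub_mul, mul_apply_eq_comp] using h2

theorem res_left {z : ℂ} (hz : ‖z‖ < 1) (f : H) : D.res z (f - z • D.B f) = f := by
  have h := Ring.inverse_mul_cancel _ (D.isUnit_one_sub hz)
  have h2 := congrArg (fun A : H →L[ℂ] H => A f) h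
  simpa [res, mul_apply_eq_comp] using h2

theorem res_B {z : ℂ} (hz : ‖z‖ < 1) (f : H) : D.res z (D.B f) = D.B (D.res z f) := by
  have h : D.B f = D.B (D.res z f) - z • D.B (D.B (D.res z f)) := by
    rw [← map_smul, ← map_sub, D.res_right hz]
  rw [h, D.res_left hz]

/-- Evaluation at a point of the unit disc. -/
noncomputable def ev (z : ℂ) : H →L[ℂ] ℂ := (innerSL ℂ D.e) ∘L D.res z

omit [CompleteSpace H] in
theorem ev_apply (z : ℂ) (f : H) : D.ev z f = inner ℂ D.e (D.res z f) := rfl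

theorem ev_zero (f : H) : D.ev 0 f = inner ℂ D.e f := by
  have h := D.res_right (z := 0) (by simp) f
  rw [zero_smul, sub_zero] at h
  rw [ev_apply, h]

theorem ev_B {z : ℂ} (hz : ‖z‖ < 1) (f : H) : z * D.ev z (D.B f) = D.ev z f - D.ev 0 f := by
  rw [D.ev_zero, ev_apply, ev_apply, D.res_B hz]
  have h := D.res_right hz f
  calc z * inner ℂ D.e (D.B (D.res z f)) = inner ℂ D.e (z • D.B (D.res z f)) := by
        rw [inner_smul_right]
    _ = inner ℂ D.e (D.res z f) - inner ℂ D.e (D.res z f - z • D.B (D.res z f)) := by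
        rw [inner_sub_right]; ring
    _ = _ := by rw [h]

theorem ev_S {z : ℂ} (hz : ‖z‖ < 1) (f : H) : D.ev z (D.S f) = z * D.ev z f := by
  have h := D.ev_B hz (D.S f)
  rw [D.BS, D.ev_zero, D.eS] at h
  rw [h]; ring

theorem ev_e {z : ℂ} (hz : ‖z‖ < 1) : D.ev z D.e = 1 := by
  have h := D.ev_B hz D.e
  rw [D.Be, map_zero, mul_zero, D.ev_zero, D.inner_ee] at h
  linear_combination -h

theorem differentiableOn_res : DifferentiableOn ℂ D.res (ball 0 1) := by
  intro z hz
  have hz' : ‖z‖ < 1 := by simpa using hz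
  have h1 : DifferentiableAt ℂ (fun z : ℂ => (1 : H →L[ℂ] H) - z • D.B) z := by fun_prop
  exact (h1.inverse (D.isUnit_one_sub hz')).differentiableWithinAt

theorem differentiableOn_ev (f : H) : DifferentiableOn ℂ (fun z => D.ev z f) (ball 0 1) := by
  have h : DifferentiableOn ℂ (fun z => (innerSL ℂ D.e) (D.res z f)) (ball 0 1) := by
    have h1 := D.differentiableOn_res
    exact (innerSL ℂ D.e).differentiable.comp_differentiableOn
      (h1.clm_apply (differentiableOn_const f))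
  exact h

theorem eq_zero_of_ev (f : H) (hf : ∀ z ∈ ball (0 : ℂ) 1, D.ev z f = 0) : f = 0 := by
  apply D.pure_shift
  have key : ∀ n : ℕ, ∀ z ∈ ball (0 : ℂ) 1, D.ev z ((D.B ^ n) f) = 0 := by
    intro n
    induction n with
    | zero => simpa using hf
    | succ n ih =>
      set g := (D.B ^ n) f with hg
      have hne : ∀ z ∈ ball (0 : ℂ) 1, z ≠ 0 → D.ev z (D.B g) = 0 := by
        intro z hz hz0
        have h := D.ev_B (by simpa using hz) g
        rw [ih z hz, ih 0 (by simp), sub_zero] at h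
        exact (mul_eq_zero.1 h).resolve_left hz0
      have hgoal : ∀ z ∈ ball (0 : ℂ) 1, D.ev z (D.B g) = 0 := by
        intro z hz
        by_cases hz0 : z = 0
        · subst hz0
          have hc : ContinuousAt (fun z => D.ev z (D.B g)) 0 :=
            ((D.differentiableOn_ev (D.B g)).differentiableAt
              (ball_mem_nhds 0 one_pos)).continuousAt
          have h1 : Tendsto (fun z => D.ev z (D.B g)) (𝓝[≠] 0) (𝓝 (D.ev 0 (D.B g))) :=
            hc.tendsto.mono_left nhdsWithin_le_nhds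
          have h2 : Tendsto (fun z => D.ev z (D.B g)) (𝓝[≠] 0) (𝓝 0) := by
            refine tendsto_const_nhds.congr' ?_
            filter_upwards [self_mem_nhdsWithin,
              mem_nhdsWithin_of_mem_nhds (ball_mem_nhds (0:ℂ) one_pos)] with z hz1 hz2
            exact (hne z hz2 hz1).symm
          exact tendsto_nhds_unique h1 h2
        · exact hne z hz hz0
      intro z hz
      rw [pow_succ', mul_apply_eq_comp]
      exact hgoal z hz
  intro n
  rw [← D.ev_zero]
  exact key n 0 (by simp)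

/-- The harmonic majorant: `|f(z)|² ≤ Re(2⟨f, (1-zB)⁻¹ f⟩ - ‖f‖²)`. -/
theorem norm_ev_sq_le {z : ℂ} (hz : ‖z‖ < 1) (f : H) :
    ‖D.ev z f‖ ^ 2 ≤ (2 * inner ℂ f (D.res z f) - (‖f‖ ^ 2 : ℝ)).re := by
  set g := D.res z f with hg
  have hfg : f = g - z • D.B g := (D.res_right hz f).symm
  have h1 : ‖f‖ ^ 2 = ‖g‖ ^ 2 - 2 * (inner ℂ g (z • D.B g)).re + ‖z • D.B g‖ ^ 2 := by
    conv_lhs => rw [hfg]
    exact norm_sub_sq (𝕜 := ℂ) _ _
  have h2 : (inner ℂ f g).re = ‖g‖ ^ 2 - (inner ℂ g (z • D.B g)).re := by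
    conv_lhs => rw [hfg]
    rw [inner_sub_left, Complex.sub_re]
    have h3 : (inner ℂ g g).re = ‖g‖ ^ 2 := by
      rw [inner_self_eq_norm_sq_to_K]; norm_cast
    have h4 : (inner ℂ (z • D.B g) g).re = (inner ℂ g (z • D.B g)).re := by
      rw [← inner_conj_symm, Complex.conj_re]
    rw [h3, h4]
  have h5 := D.norm_B_sq g
  have h6 : ‖z • D.B g‖ ^ 2 = ‖z‖ ^ 2 * ‖D.B g‖ ^ 2 := by rw [norm_smul]; ring
  have h7 : ‖inner ℂ D.e g‖ ≤ ‖g‖ := by
    have := norm_inner_le_norm (𝕜 := ℂ) D.e g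
    rwa [D.norm_e, one_mul] at this
  have h8 : ‖inner ℂ D.e g‖ ^ 2 ≤ ‖g‖ ^ 2 := by gcongr
  have h9 : ‖z‖ ^ 2 ≤ 1 := by
    have := norm_nonneg z
    nlinarith
  have h10 : (2 * inner ℂ f g - ((‖f‖ ^ 2 : ℝ) : ℂ)).re = 2 * (inner ℂ f g).re - ‖f‖ ^ 2 := by
    rw [Complex.sub_re, Complex.ofReal_re, Complex.mul_re]
    simp
  rw [D.ev_apply, ← hg]
  rw [h10, h2, h1, h6, h5]
  nlinarith [norm_nonneg z, sq_nonneg ‖z‖]

end ShiftData

end Pool.Agent.Lib.MP_895317_an
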