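import Mathlib
import Pool.Agent.Lib.MP_895317_an.Shift

/-!
# Fourier coefficients of elements of `L²(𝕋)` and `H²`; the shift on `H²`
-/

open MeasureTheory AddCircle Set Filter Topology Metric
open scoped ENNReal ComplexConjugate

namespace Pool.Agent.Lib.MP_895317_an

/-- The `n`-th Fourier coefficient. -/
noncomputable def coef (n : ℤ) (g : L2T) : ℂ := inner ℂ (monomial n) g

theorem coef_eq_integral (n : ℤ) (g : L2T) :
    coef n g = ∫ x, fourier (-n) x * g.val x ∂(haarAddCircle : Measure UnitAddCircle) := by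
  have h1 := fourierBasis_repr g.toLp n
  rw [HilbertBasis.repr_apply_apply, coe_fourierBasis] at h1
  have h2 : coef n g = inner ℂ (fourierLp 2 n) g.toLp := rfl
  rw [h2, h1]
  rfl

theorem coef_add (n : ℤ) (f g : L2T) : coef n (f + g) = coef n f + coef n g := inner_add_right _ _ _

theorem coef_sub (n : ℤ) (f g : L2T) : coef n (f - g) = coef n f - coef n g := inner_sub_right _ _ _

theorem coef_smul (n : ℤ) (c : ℂ) (g : L2T) : coef n (c • g) = c * coef n g :=
  inner_smul_right _ _ _

theorem coef_monomial (m n : ℤ) : coef m (monomial n) = if m = n then 1 else 0 := by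
  have h := orthonormal_iff_ite.1 (orthonormal_fourier (T := 1)) m n
  exact h

theorem norm_monomial (n : ℤ) : ‖monomial n‖ = 1 := (orthonormal_fourier (T := 1)).1 n

theorem L2T.ext_coef {f g : L2T} (h : ∀ n : ℤ, coef n f = coef n g) : f = g := by
  have h1 : (fourierBasis (T := 1)).repr f.toLp = (fourierBasis (T := 1)).repr g.toLp := by
    ext n
    rw [HilbertBasis.repr_apply_apply, HilbertBasis.repr_apply_apply, coe_fourierBasis]
    exact h n
  exact (fourierBasis (T := 1)).repr.injective h1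

theorem mem_hardy_iff (f : L2T) : f ∈ hardy ↔ ∀ n : ℤ, n < 0 → coef n f = 0 := by
  unfold hardy
  rw [Submodule.mem_orthogonal]
  constructor
  · intro h n hn
    exact h _ (Submodule.subset_span ⟨n, hn, rfl⟩)
  · intro h u hu
    induction hu using Submodule.span_induction with
    | mem x hx =>
      obtain ⟨n, hn, rfl⟩ := hx
      exact h n hn
    | zero => exact inner_zero_left _
    | add x y _ _ hx hy => rw [inner_add_left, hx, hy, add_zero]
    | smul c x _ hx => rw [inner_smul_left, hx, mul_zero]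

theorem coef_incl_neg (f : H2) {n : ℤ} (hn : n < 0) : coef n f.incl = 0 :=
  (mem_hardy_iff f.incl).1 (Subtype.property f) n hn

theorem monomial_mem_hardy {n : ℤ} (hn : 0 ≤ n) : monomial n ∈ hardy := by
  rw [mem_hardy_iff]
  intro m hm
  rw [coef_monomial, if_neg (by omega)]

theorem H2.ext_coef {f g : H2} (h : ∀ n : ℕ, coef n f.incl = coef n g.incl) : f = g := by
  have h1 : f.incl = g.incl := by
    apply L2T.ext_coef
    intro n
    rcases lt_or_ge n 0 with hn | hn
    · rw [coef_incl_neg f hn, coef_incl_neg g hn]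
    · obtain ⟨k, rfl⟩ := Int.eq_ofNat_of_zero_le hn
      exact h k
  exact Subtype.ext h1

theorem coef_Pplus (g : L2T) (n : ℕ) : coef n (Pplus g).incl = coef n g := by
  have h := hardy.inner_orthogonalProjectionOnto_eq_of_mem_left
    (⟨monomial n, monomial_mem_hardy (by positivity)⟩ : hardy) g
  exact h

theorem incl_norm (f : H2) : ‖f.incl‖ = ‖f‖ := rfl

theorem incl_Pplus {g : L2T} (hg : g ∈ hardy) : (Pplus g).incl = g := by
  have h := hardy.orthogonalProjectionOnto_mem_subspace_eq_self (⟨g, hg⟩ : hardy)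
  exact congrArg Subtype.val h

/-- The monomials are bounded functions. -/
theorem memLp_fourier (n : ℤ) :
    MemLp (fun x : UnitAddCircle => (fourier n x : ℂ)) ∞ haarAddCircle := by
  refine memLp_top_of_bound (fourier n).continuous.aestronglyMeasurable 1
    (Eventually.of_forall fun x => ?_)
  rw [fourier_apply]; simp

theorem val_mulFun {ψ : UnitAddCircle → ℂ} (hψ : MemLp ψ ∞ haarAddCircle) (f : L2T) :
    ∀ᵐ x ∂(haarAddCircle : Measure UnitAddCircle), (mulFun ψ hψ f).val x = ψ x * f.val x :=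
  (memLp_mul hψ f).coeFn_toLp

theorem coef_mulFun {ψ : UnitAddCircle → ℂ} (hψ : MemLp ψ ∞ haarAddCircle) (f : L2T) (n : ℤ) :
    coef n (mulFun ψ hψ f)
      = ∫ x, fourier (-n) x * (ψ x * f.val x) ∂(haarAddCircle : Measure UnitAddCircle) := by
  rw [coef_eq_integral]
  refine integral_congr_ae ?_
  filter_upwards [val_mulFun hψ f] with x hx
  rw [hx]

theorem coef_mul_fourier (m n : ℤ) (f : L2T) :
    coef n (mulFun _ (memLp_fourier m) f) = coef (n - m) f := by
  rw [coef_mulFun, coef_eq_integral]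
  refine integral_congr_ae (Eventually.of_forall fun x => ?_)
  change fourier (-n) x * (fourier m x * f.val x) = _
  rw [← mul_assoc, ← fourier_add]
  congr 3
  ring

theorem norm_mul_fourier (m : ℤ) (f : L2T) : ‖mulFun _ (memLp_fourier m) f‖ = ‖f‖ := by
  have h1 : ‖mulFun _ (memLp_fourier m) f‖
      = (eLpNorm (fun x => (fourier m x : ℂ) * f.val x) 2 haarAddCircle).toReal :=
    Lp.norm_toLp _ (memLp_mul (memLp_fourier m) f)
  have h2 : ‖f‖ = (eLpNorm f.val 2 haarAddCircle).toReal := rfl
  rw [h1, h2]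
  congr 1
  refine eLpNorm_congr_norm_ae (Eventually.of_forall fun x => ?_)
  rw [norm_mul, fourier_apply]; simp

/-- If `|ψ| ≥ δ` almost everywhere then `‖ψ f‖ ≥ δ ‖f‖`. -/
theorem le_norm_mulFun {ψ : UnitAddCircle → ℂ} (hψ : MemLp ψ ∞ haarAddCircle) {δ : ℝ}
    (hδ : 0 ≤ δ) (h : ∀ᵐ x ∂(haarAddCircle : Measure UnitAddCircle), δ ≤ ‖ψ x‖) (f : L2T) :
    δ * ‖f‖ ≤ ‖mulFun ψ hψ f‖ := by
  have h1 : ‖mulFun ψ hψ f‖
      = (eLpNorm (fun x => ψ x * f.val x) 2 haarAddCircle).toReal :=
    Lp.norm_toLp _ (memLp_mul hψ f)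
  have h2 : ‖f‖ = (eLpNorm f.val 2 haarAddCircle).toReal := rfl
  have hreal : (ENNReal.ofReal δ).toReal = δ := ENNReal.toReal_ofReal hδ
  have h3 : ENNReal.ofReal δ * eLpNorm f.val 2 haarAddCircle
      ≤ eLpNorm (fun x => ψ x * f.val x) 2 haarAddCircle := by
    have h4 : eLpNorm ((δ : ℂ) • f.val) 2 haarAddCircle
      = ‖(δ : ℂ)‖ₑ * eLpNorm f.val 2 haarAddCircle := eLpNorm_const_smul (δ : ℂ) f.val 2 _
    have h5 : ‖(δ : ℂ)‖ₑ = ENNReal.ofReal δ := by
      rw [← ofReal_norm, Complex.norm_real, Real.norm_of_nonneg hδ]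
    rw [← h5, ← h4]
    refine eLpNorm_mono_ae ?_
    filter_upwards [h] with x hx
    rw [Pi.smul_apply, norm_smul, norm_mul, Complex.norm_real, Real.norm_of_nonneg hδ]
    gcongr
  have h6 := ENNReal.toReal_mono (memLp_mul hψ f).eLpNorm_ne_top h3
  rw [ENNReal.toReal_mul, hreal] at h6
  rw [h1, h2]
  exact h6

theorem norm_toeplitz_fourier_one (f : H2) : ‖toeplitz _ (memLp_fourier 1) f‖ = ‖f‖ := by
  have h0 : toeplitz _ (memLp_fourier 1) f = Pplus (mulFun _ (memLp_fourier 1) f.incl) := rfl
  have hmem : mulFun _ (memLp_fourier 1) f.incl ∈ hardy := by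
    rw [mem_hardy_iff]
    intro n hn
    rw [coef_mul_fourier]
    exact coef_incl_neg f (by omega)
  rw [h0, ← incl_norm, incl_Pplus hmem, norm_mul_fourier, incl_norm]

/-- The forward shift on `H²`. -/
noncomputable def shiftS : H2 →ₗᵢ[ℂ] H2 :=
  ⟨(toeplitz _ (memLp_fourier 1)).toLinearMap, norm_toeplitz_fourier_one⟩

theorem shiftS_apply (f : H2) : shiftS f = toeplitz _ (memLp_fourier 1) f := rfl

theorem coef_toeplitz {ψ : UnitAddCircle → ℂ} (hψ : MemLp ψ ∞ haarAddCircle) (f : H2) (n : ℕ) :
    coef n (toeplitz ψ hψ f).incl = coef n (mulFun ψ hψ f.incl) := coef_Pplus _ n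

theorem coef_shiftS (f : H2) (n : ℕ) : coef n (shiftS f).incl = coef ((n : ℤ) - 1) f.incl := by
  rw [shiftS_apply, coef_toeplitz, coef_mul_fourier]

/-- The backward shift on `H²`. -/
noncomputable def shiftB : H2 →L[ℂ] H2 := toeplitz _ (memLp_fourier (-1))

theorem coef_shiftB (f : H2) (n : ℕ) : coef n (shiftB f).incl = coef ((n : ℤ) + 1) f.incl := by
  rw [shiftB, coef_toeplitz, coef_mul_fourier, sub_neg_eq_add]

/-- The constant function `1`. -/
noncomputable def oneH2 : H2 := ⟨monomial 0, monomial_mem_hardy le_rfl⟩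

theorem inner_oneH2 (f : H2) : inner ℂ oneH2 f = coef 0 f.incl := rfl

theorem coef_shiftB_pow (f : H2) (k n : ℕ) :
    coef n ((shiftB ^ k) f).incl = coef ((n : ℤ) + k) f.incl := by
  induction k generalizing n with
  | zero => simp
  | succ k ih =>
    rw [pow_succ', mul_apply_eq_comp, coef_shiftB]
    have := ih (n + 1)
    rw [Nat.cast_add, Nat.cast_one] at this
    rw [this, Nat.cast_add, Nat.cast_one]
    congr 1
    ring

/-- The shift structure of `H²`. -/
noncomputable def hardyShift : ShiftData H2 where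
  S := shiftS
  B := shiftB
  e := oneH2
  norm_e := norm_monomial 0
  BS f := by
    apply H2.ext_coef
    intro n
    rw [coef_shiftB]
    have := coef_shiftS f (n + 1)
    push_cast at this
    rw [this]
    congr 1
    ring
  SB f := by
    apply H2.ext_coef
    intro n
    have h0 : (f - inner ℂ oneH2 f • oneH2).incl = f.incl - inner ℂ oneH2 f • monomial 0 := rfl
    rw [h0, coef_sub, coef_smul, coef_monomial, inner_oneH2, coef_shiftS]
    rcases Nat.eq_zero_or_pos n with rfl | hn
    · rw [coef_incl_neg _ (by norm_num)]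
      simp
    · have h1 := coef_shiftB f (n - 1)
      rw [Nat.cast_sub hn, Nat.cast_one] at h1
      rw [h1, if_neg (by omega)]
      simp
  eS f := by
    rw [inner_oneH2]
    have := coef_shiftS f 0
    simp only [Nat.cast_zero] at this
    rw [this, coef_incl_neg _ (by norm_num)]
  pure_shift f h := by
    apply H2.ext_coef
    intro n
    have h1 := h n
    rw [inner_oneH2] at h1
    have h2 := coef_shiftB_pow f n 0
    simp only [Nat.cast_zero, zero_add] at h2
    rw [h2] at h1
    rw [h1]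
    have : (0 : H2).incl = 0 := rfl
    rw [this]
    exact (inner_zero_right _).symm

end Pool.Agent.Lib.MP_895317_an
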