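import Mathlib
import Pool.Agent.Lib.MP_895317_an.Shift

/-!
# The hypercyclicity argument in the abstract shift model
-/

open Set Filter Topology Metric Real
open scoped ComplexConjugate

namespace Pool.Agent.Lib.MP_895317_an

/-- A hypercyclic operator has no eigenfunctional. -/
theorem not_hypercyclic_of_eigenfunctional {X : Type*} [NormedAddCommGroup X] [NormedSpace ℂ X]
    (T : X →L[ℂ] X) (L : X →L[ℂ] ℂ) (c : ℂ) (hL : ∃ v, L v ≠ 0) (h : ∀ f, L (T f) = c * L f) :
    ¬ IsHypercyclic T := by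
  rintro ⟨x, hx⟩
  have hsurj : Function.Surjective L := by
    obtain ⟨v, hv⟩ := hL
    intro w
    exact ⟨(w / L v) • v, by rw [map_smul, smul_eq_mul, div_mul_cancel₀ _ hv]⟩
  have hpow : ∀ n : ℕ, L ((T ^ n) x) = c ^ n * L x := by
    intro n
    induction n with
    | zero => simp
    | succ n ih => rw [pow_succ', mul_apply_eq_comp, h, ih]; ring
  have hd : Dense (L '' Set.range fun n : ℕ => (T ^ n) x) :=
    hsurj.denseRange.dense_image L.continuous hx
  by_cases hc : ‖c‖ ≤ 1 ∨ L x = 0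
  · have hsub : (L '' Set.range fun n : ℕ => (T ^ n) x) ⊆ closedBall 0 ‖L x‖ := by
      rintro _ ⟨_, ⟨n, rfl⟩, rfl⟩
      rw [mem_closedBall_zero_iff]
      change ‖L ((T ^ n) x)‖ ≤ _
      rw [hpow, norm_mul, norm_pow]
      rcases hc with hc | hc
      · have : ‖c‖ ^ n ≤ 1 := pow_le_one₀ (norm_nonneg _) hc
        nlinarith [norm_nonneg (L x)]
      · simp [hc]
    have h1 : ((‖L x‖ + 1 : ℝ) : ℂ) ∈ closedBall (0 : ℂ) ‖L x‖ :=
      closure_minimal hsub isClosed_closedBall (hd _)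
    rw [mem_closedBall_zero_iff, Complex.norm_real, Real.norm_of_nonneg (by positivity)] at h1
    linarith
  · push Not at hc
    have hsub : (L '' Set.range fun n : ℕ => (T ^ n) x) ⊆ {z | ‖L x‖ ≤ ‖z‖} := by
      rintro _ ⟨_, ⟨n, rfl⟩, rfl⟩
      change ‖L x‖ ≤ ‖L ((T ^ n) x)‖
      rw [hpow, norm_mul, norm_pow]
      have : 1 ≤ ‖c‖ ^ n := one_le_pow₀ hc.1.le
      nlinarith [norm_nonneg (L x)]
    have h1 : (0 : ℂ) ∈ {z : ℂ | ‖L x‖ ≤ ‖z‖} :=
      closure_minimal hsub (isClosed_le continuous_const continuous_norm) (hd _)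
    have h2 : ‖L x‖ ≤ ‖(0 : ℂ)‖ := h1
    rw [norm_zero] at h2
    exact hc.2 (norm_le_zero_iff.1 h2)

section
variable {H : Type*} [NormedAddCommGroup H] [InnerProductSpace ℂ H] [CompleteSpace H]
variable (D : ShiftData H) (T : H →L[ℂ] H) (γ : ℂ) (φ : ℂ → ℂ)

/-- The operator `T` acts, on the level of functions, as `z (T f)(z) = (γ + z φ(z)) f(z) - γ f(0)`;
this is the action of `T_Φ`, `Φ(z) = γ/z + φ(z)`. -/
def ActsAs : Prop :=
  ∀ z : ℂ, ‖z‖ < 1 → ∀ f, z * D.ev z (T f) = (γ + z * φ z) * D.ev z f - γ * D.ev 0 f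

variable {T γ φ}

theorem ShiftData.eq_of_mul_ev {f g : H} (h : ∀ z : ℂ, ‖z‖ < 1 → z * D.ev z f = z * D.ev z g) :
    f = g := by
  have h1 : D.S (f - g) = 0 := by
    apply D.eq_zero_of_ev
    intro z hz
    have hz' : ‖z‖ < 1 := by simpa using hz
    rw [D.ev_S hz', map_sub, mul_sub, h z hz', sub_self]
  have h2 : ‖D.S (f - g)‖ = 0 := by rw [h1, norm_zero]
  rw [D.S.norm_map] at h2
  exact sub_eq_zero.1 (norm_eq_zero.1 h2)

theorem gamma_ne_zero (hT : ActsAs D T γ φ) (hyp : IsHypercyclic T) : γ ≠ 0 := by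
  rintro rfl
  have hz : ‖(1 / 2 : ℂ)‖ < 1 := by norm_num
  refine not_hypercyclic_of_eigenfunctional T (D.ev (1 / 2)) (φ (1 / 2))
    ⟨D.e, by rw [D.ev_e hz]; exact one_ne_zero⟩ (fun f => ?_) hyp
  have h := hT (1 / 2) hz f
  have h2 : (1 / 2 : ℂ) * D.ev (1 / 2) (T f) = (1 / 2) * (φ (1 / 2) * D.ev (1 / 2) f) := by
    rw [h]; ring
  exact mul_left_cancel₀ (by norm_num) h2

theorem injOn_symbolFun (hT : ActsAs D T γ φ) (hyp : IsHypercyclic T) :
    InjOn (symbolFun γ φ) (ball 0 1 \ {0}) := by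
  rintro w₁ ⟨hw₁, hw₁0⟩ w₂ ⟨hw₂, hw₂0⟩ heq
  have hw₁' : ‖w₁‖ < 1 := by simpa using hw₁
  have hw₂' : ‖w₂‖ < 1 := by simpa using hw₂
  have hw₁0' : w₁ ≠ 0 := by simpa using hw₁0
  have hw₂0' : w₂ ≠ 0 := by simpa using hw₂0
  by_contra hne
  refine not_hypercyclic_of_eigenfunctional T (w₁ • D.ev w₁ - w₂ • D.ev w₂) (symbolFun γ φ w₁)
    ⟨D.e, ?_⟩ (fun f => ?_) hyp
  · simp only [FunLike.coe_sub, FunLike.coe_smul, Pi.sub_apply, Pi.smul_apply, smul_eq_mul]
    rw [D.ev_e hw₁', D.ev_e hw₂', mul_one, mul_one]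
    exact sub_ne_zero.2 hne
  · simp only [FunLike.coe_sub, FunLike.coe_smul, Pi.sub_apply, Pi.smul_apply, smul_eq_mul]
    rw [hT w₁ hw₁' f, hT w₂ hw₂' f]
    have e₁ : γ + w₁ * φ w₁ = w₁ * symbolFun γ φ w₁ := by
      unfold symbolFun; field_simp
    have e₂ : γ + w₂ * φ w₂ = w₂ * symbolFun γ φ w₁ := by
      rw [heq]; unfold symbolFun; field_simp
    rw [e₁, e₂]; ring

/-- If `lam` is in the resolvent set then `Φ` takes the value `lam`, at a point `μ` which is
recovered from the resolvent. -/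
theorem exists_of_notMem_spectrum (hT : ActsAs D T γ φ) (hγ : γ ≠ 0) {lam : ℂ}
    (hlam : lam ∉ spectrum ℂ T) :
    ∃ μ : ℂ, ‖μ‖ < 1 ∧ μ ≠ 0 ∧ symbolFun γ φ μ = lam ∧
      ∀ u, γ * D.ev 0 (resolvent T lam u) = μ * D.ev μ u := by
  set P := resolvent T lam with hP
  have hunit : IsUnit (algebraMap ℂ (H →L[ℂ] H) lam - T) := spectrum.notMem_iff.1 hlam
  have hr : ∀ u, lam • P u - T (P u) = u := by
    intro u
    have h := Ring.mul_inverse_cancel _ hunit
    have h2 := congrArg (fun A : H →L[ℂ] H => A u) h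
    simpa [hP, resolvent, sub_mul, mul_apply_eq_comp, Algebra.algebraMap_eq_smul_one] using h2
  have hl : ∀ f, P (lam • f - T f) = f := by
    intro f
    have h := Ring.inverse_mul_cancel _ hunit
    have h2 := congrArg (fun A : H →L[ℂ] H => A f) h
    simpa [hP, resolvent, mul_apply_eq_comp, Algebra.algebraMap_eq_smul_one] using h2
  -- the basic identity for `f = P u`
  have hN : ∀ u : H, ∀ z : ℂ, ‖z‖ < 1 →
      (γ + z * (φ z - lam)) * D.ev z (P u) = γ * D.ev 0 (P u) - z * D.ev z u := by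
    intro u z hz
    have h1 := hT z hz (P u)
    have h2 : z * D.ev z (T (P u)) = z * (lam * D.ev z (P u) - D.ev z u) := by
      have h3 : T (P u) = lam • P u - u := by
        rw [← sub_eq_iff_eq_add.2 (sub_eq_iff_eq_add'.1 (hr u))]
      rw [h3, map_sub, map_smul, smul_eq_mul]
    rw [h2] at h1
    linear_combination -h1
  -- the functional
  set Lam : H →L[ℂ] ℂ := D.ev 0 + γ • (D.ev 0 ∘L P ∘L D.B) with hLam
  have hLam_apply : ∀ v, Lam v = D.ev 0 v + γ * D.ev 0 (P (D.B v)) := by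
    intro v; simp [hLam]
  set μ : ℂ := γ * D.ev 0 (P D.e) with hμ
  have hLam_e : Lam D.e = 1 := by
    rw [hLam_apply, D.Be, map_zero, map_zero, mul_zero, add_zero, D.ev_e (by simp)]
  have hLam_S' : ∀ v, Lam (D.S v) = γ * D.ev 0 (P v) := by
    intro v
    rw [hLam_apply, D.BS, D.ev_S (by simp)]
    ring
  have hLam_S : ∀ v, Lam (D.S v) = μ * Lam v := by
    intro v
    set f := P (D.B v) with hf
    have key : T (D.S f) = lam • D.S f - v + Lam v • D.e := by
      apply D.eq_of_mul_ev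
      intro z hz
      have h1 := hT z hz (D.S f)
      rw [D.ev_S hz, D.ev_S (z := 0) (by simp), zero_mul, mul_zero, sub_zero] at h1
      rw [h1, map_add, map_sub, map_smul, map_smul, D.ev_S hz, D.ev_e hz, smul_eq_mul,
        smul_eq_mul, mul_one]
      have h2 := hN (D.B v) z hz
      rw [← hf, D.ev_B hz] at h2
      rw [hLam_apply, ← hf]
      linear_combination z * h2
    have h3 : D.S f = P v - Lam v • P D.e := by
      rw [← hl (D.S f), key]
      rw [show lam • D.S f - (lam • D.S f - v + Lam v • D.e) = v - Lam v • D.e by abel]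
      rw [map_sub, map_smul]
    have h4 := congrArg (D.ev 0) h3
    rw [D.ev_S (by simp), zero_mul, map_sub, map_smul, smul_eq_mul] at h4
    rw [hLam_S', hμ]
    linear_combination -γ * h4
  -- Riesz vector
  set l := (InnerProductSpace.toDual ℂ H).symm Lam with hl_def
  have hl_inner : ∀ v, inner ℂ l v = Lam v := fun v => InnerProductSpace.toDual_symm_apply
  have hBl : D.B l = conj μ • l := by
    refine ext_inner_right ℂ fun v => ?_
    rw [D.adjoint_BS, hl_inner, hLam_S, inner_smul_left, hl_inner]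
    simp
  have hl0 : l ≠ 0 := by
    intro h0
    have := hl_inner D.e
    rw [h0, inner_zero_left, hLam_e] at this
    exact zero_ne_one this
  have hμ1 : ‖μ‖ < 1 := by
    by_contra hge
    push Not at hge
    have h1 := D.norm_B_sq l
    rw [hBl, norm_smul, RCLike.norm_conj, mul_pow] at h1
    have h2 : ‖inner ℂ D.e l‖ ^ 2 ≤ 0 := by
      have : 1 ≤ ‖μ‖ ^ 2 := one_le_pow₀ hge
      nlinarith [sq_nonneg ‖l‖]
    have h3 : inner ℂ D.e l = 0 := by
      have : ‖inner ℂ D.e l‖ = 0 := by nlinarith [norm_nonneg (inner ℂ D.e l)]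
      exact norm_eq_zero.1 this
    apply hl0
    apply D.pure_shift
    intro n
    have h4 : (D.B ^ n) l = (conj μ) ^ n • l := by
      induction n with
      | zero => simp
      | succ n ih => rw [pow_succ', mul_apply_eq_comp, ih, map_smul, hBl, smul_smul, pow_succ]
    rw [h4, inner_smul_right, h3, mul_zero]
  -- `Lam` is evaluation at `μ`
  have hLam_ev : ∀ v, Lam v = D.ev μ v := by
    intro v
    set q := D.res μ (D.B v) with hq
    have hq1 : D.S q - μ • q = v - D.ev μ v • D.e := by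
      apply D.eq_of_mul_ev
      intro z hz
      congr 1
      rw [map_sub, map_sub, map_smul, map_smul, D.ev_S hz, D.ev_e hz, smul_eq_mul, smul_eq_mul,
        mul_one]
      have h1 : q - μ • D.B q = D.B v := D.res_right hμ1 (D.B v)
      have h2 := congrArg (fun w => z * D.ev z w) h1
      simp only [map_sub, map_smul, smul_eq_mul] at h2
      have h3 := D.ev_B hz q
      have h4 := D.ev_B hz v
      have h5 := D.ev_B hμ1 v
      have h6 : D.ev 0 q = D.ev μ (D.B v) := by rw [D.ev_zero]; rfl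
      linear_combination h2 + μ * h3 + h4 - h5 - μ * h6
    have h7 := congrArg Lam hq1
    rw [map_sub, map_sub, map_smul, map_smul, hLam_S, hLam_e, smul_eq_mul, smul_eq_mul, mul_one,
      sub_self] at h7
    exact (sub_eq_zero.1 h7.symm)
  have hres : ∀ u, γ * D.ev 0 (P u) = μ * D.ev μ u := by
    intro u
    rw [← hLam_S', hLam_S, hLam_ev]
  -- the zero
  have hzero : γ + μ * (φ μ - lam) = 0 := by
    have h1 := hN (lam • D.e - T D.e) μ hμ1
    rw [hres, sub_self, hl, D.ev_e hμ1, mul_one] at h1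
    exact h1
  have hμ0 : μ ≠ 0 := by
    intro h0
    rw [h0, zero_mul, add_zero] at hzero
    exact hγ hzero
  refine ⟨μ, hμ1, hμ0, ?_, hres⟩
  unfold symbolFun
  field_simp
  linear_combination hzero

end

end Pool.Agent.Lib.MP_895317_an
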