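import Mathlib
import Pool.Agent.Lib.MP_895317_an.Dynamics

/-!
# The spectrum of a hypercyclic `T_Φ` meets the open unit disc
-/

open Set Filter Topology Metric Real
open scoped ComplexConjugate

namespace Pool.Agent.Lib.MP_895317_an

/-- Orthogonality on circles: for `V` holomorphic in the disc, the mean of `|a + z V(z)|²` over
`|z| = r` is `|a|² + r²` times the mean of `|V|²`. -/
theorem circleAverage_recurrence {V : ℂ → ℂ} (hV : DifferentiableOn ℂ V (ball 0 1)) (a : ℂ)
    {r : ℝ} (hr0 : 0 < r) (hr1 : r < 1) :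
    circleAverage (fun z => ‖a + z * V z‖ ^ 2) 0 r
      = ‖a‖ ^ 2 + r ^ 2 * circleAverage (fun z => ‖V z‖ ^ 2) 0 r := by
  have hsub : sphere (0:ℂ) r ⊆ ball 0 1 := fun z hz => by
    rw [mem_sphere_zero_iff_norm] at hz; rw [mem_ball_zero_iff, hz]; exact hr1
  have hVc : ContinuousOn V (sphere 0 r) := hV.continuousOn.mono hsub
  have hF : DifferentiableOn ℂ (fun z => conj a * (z * V z)) (ball 0 1) :=
    (differentiableOn_id.mul hV).const_mul _
  have hFd : DiffContOnCl ℂ (fun z => conj a * (z * V z)) (ball 0 |r|) := by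
    rw [abs_of_pos hr0]
    refine hF.diffContOnCl_ball ?_ |>.mono subset_rfl
    exact closedBall_subset_ball hr1
  have h1 : circleAverage (fun z => conj a * (z * V z)) 0 r = 0 := by
    rw [hFd.circleAverage]; simp
  have hci : CircleIntegrable (fun z => conj a * (z * V z)) 0 r :=
    ContinuousOn.circleIntegrable hr0.le (by fun_prop)
  have h2 : circleAverage (fun z => (conj a * (z * V z)).re) 0 r = 0 := by
    have := Complex.reCLM.circleAverage_comp_comm hci
    rw [h1, map_zero] at this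
    exact this
  have hci1 : CircleIntegrable (fun z => 2 * (conj a * (z * V z)).re) 0 r :=
    ContinuousOn.circleIntegrable hr0.le (by fun_prop)
  have hci2 : CircleIntegrable (fun z => r ^ 2 * ‖V z‖ ^ 2) 0 r :=
    ContinuousOn.circleIntegrable hr0.le (by fun_prop)
  have hci3 : CircleIntegrable (fun _ : ℂ => ‖a‖ ^ 2) 0 r := circleIntegrable_const _ _ _
  have h3 : circleAverage (fun z => ‖a + z * V z‖ ^ 2) 0 r
      = circleAverage (fun z => (‖a‖ ^ 2 + 2 * (conj a * (z * V z)).re) + r ^ 2 * ‖V z‖ ^ 2) 0 r := by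
    refine circleAverage_congr_sphere fun z hz => ?_
    rw [abs_of_pos hr0, mem_sphere_zero_iff_norm] at hz
    change ‖a + z * V z‖ ^ 2 = _
    have e1 : ‖a + z * V z‖ ^ 2 = ‖a‖ ^ 2 + 2 * (conj a * (z * V z)).re + ‖z * V z‖ ^ 2 := by
      have h := norm_add_sq (𝕜 := ℂ) a (z * V z)
      rw [h]
      have : inner ℂ a (z * V z) = conj a * (z * V z) := by
        rw [RCLike.inner_apply]; ring
      rw [this]
      rfl
    rw [e1, norm_mul, hz]
    ring
  have hci4 : CircleIntegrable (fun z => ‖a‖ ^ 2 + 2 * (conj a * (z * V z)).re) 0 r :=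
    ContinuousOn.circleIntegrable hr0.le (by fun_prop)
  rw [h3, circleAverage_fun_add hci4 hci2, circleAverage_fun_add hci3 hci1,
    circleAverage_const]
  have h4 : circleAverage (fun z => 2 * (conj a * (z * V z)).re) 0 r = 0 := by
    have := circleAverage_fun_smul (a := (2:ℝ)) (f := fun z => (conj a * (z * V z)).re)
      (c := 0) (R := r)
    simp only [smul_eq_mul] at this
    rw [this, h2, mul_zero]
  have h5 : circleAverage (fun z => r ^ 2 * ‖V z‖ ^ 2) 0 r
      = r ^ 2 * circleAverage (fun z => ‖V z‖ ^ 2) 0 r := by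
    have := circleAverage_fun_smul (a := (r ^ 2:ℝ)) (f := fun z => ‖V z‖ ^ 2)
      (c := (0:ℂ)) (R := r)
    simpa only [smul_eq_mul] using this
  rw [h4, h5, add_zero]

section
variable {H : Type*} [NormedAddCommGroup H] [InnerProductSpace ℂ H] [CompleteSpace H]
variable (D : ShiftData H) {T : H →L[ℂ] H} {γ : ℂ} {φ : ℂ → ℂ}

/-- The function `λ ↦ γ · ((λ - T)⁻¹ u)(0)`. -/
noncomputable def Ufun (T : H →L[ℂ] H) (γ : ℂ) (u : H) (lam : ℂ) : ℂ :=
  γ * D.ev 0 (resolvent T lam u)

theorem differentiableOn_Ufun (hρ : ∀ lam ∈ ball (0:ℂ) 1, lam ∉ spectrum ℂ T) (u : H) :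
    DifferentiableOn ℂ (Ufun D T γ u) (ball 0 1) := by
  have h1 : DifferentiableOn ℂ (fun lam : ℂ => resolvent T lam) (ball 0 1) := by
    intro lam hlam
    have h : DifferentiableAt ℂ (fun lam : ℂ => algebraMap ℂ (H →L[ℂ] H) lam - T) lam := by
      simp only [Algebra.algebraMap_eq_smul_one]
      fun_prop
    exact (h.inverse (spectrum.notMem_iff.1 (hρ lam hlam))).differentiableWithinAt
  have h2 : DifferentiableOn ℂ (fun lam : ℂ => (D.ev 0) (resolvent T lam u)) (ball 0 1) :=
    (D.ev 0).differentiable.comp_differentiableOn (h1.clm_apply (differentiableOn_const u))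
  exact h2.const_mul γ

omit [CompleteSpace H] in
theorem resolvent_identity (hρ : ∀ lam ∈ ball (0:ℂ) 1, lam ∉ spectrum ℂ T) (u : H)
    {lam : ℂ} (hlam : lam ∈ ball (0:ℂ) 1) :
    resolvent T lam u
      = resolvent T (0:ℂ) u + lam • resolvent T lam (-(resolvent T (0:ℂ) u)) := by
  have hu1 := spectrum.notMem_iff.1 (hρ lam hlam)
  have hu0 := spectrum.notMem_iff.1 (hρ 0 (by simp))
  have hr : ∀ v, -(T (resolvent T (0:ℂ) v)) = v := by
    intro v
    have h := Ring.mul_inverse_cancel _ hu0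
    have h2 := congrArg (fun A : H →L[ℂ] H => A v) h
    simpa [resolvent, sub_mul, mul_apply_eq_comp, Algebra.algebraMap_eq_smul_one] using h2
  have hl : ∀ f, resolvent T lam (lam • f - T f) = f := by
    intro f
    have h := Ring.inverse_mul_cancel _ hu1
    have h2 := congrArg (fun A : H →L[ℂ] H => A f) h
    simpa [resolvent, mul_apply_eq_comp, Algebra.algebraMap_eq_smul_one] using h2
  set g := resolvent T (0:ℂ) u with hg
  have h3 : resolvent T lam (lam • g - T g) = g := hl g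
  have h4 : lam • g - T g = u + lam • g := by
    have := hr u
    rw [← hg] at this
    rw [sub_eq_add_neg, this]; abel
  rw [h4, map_add, map_smul] at h3
  rw [map_neg, smul_neg]
  rw [← sub_eq_add_neg]
  exact eq_sub_of_add_eq h3

/-- **The spectrum of a hypercyclic operator of the form `T_Φ` meets the open unit disc.** -/
theorem exists_mem_spectrum (hT : ActsAs D T γ φ) (hyp : IsHypercyclic T) :
    ∃ lam ∈ ball (0:ℂ) 1, lam ∈ spectrum ℂ T := by
  by_contra hcon
  push Not at hcon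
  have hγ := gamma_ne_zero D hT hyp
  -- the analytic selection `ω`
  set ω : ℂ → ℂ := Ufun D T γ D.e with hω
  have hsel : ∀ lam ∈ ball (0:ℂ) 1, ‖ω lam‖ < 1 ∧
      ∀ u, Ufun D T γ u lam = ω lam * D.ev (ω lam) u := by
    intro lam hlam
    obtain ⟨μ, hμ1, hμ0, -, hμ⟩ := exists_of_notMem_spectrum D hT hγ (hcon lam hlam)
    have h1 : ω lam = μ := by
      have := hμ D.e
      rw [D.ev_e hμ1, mul_one] at this
      exact this
    rw [h1]
    exact ⟨hμ1, hμ⟩
  have hωd : DifferentiableOn ℂ ω (ball 0 1) := differentiableOn_Ufun D hcon D.e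
  have hω0 : ‖ω 0‖ < 1 := (hsel 0 (by simp)).1
  set C : ℝ := 2 * ‖D.res (ω 0)‖ with hC
  have hC0 : 0 ≤ C := by positivity
  -- Step 1: the Littlewood subordination bound
  have hstep1 : ∀ u : H, ∀ r : ℝ, 0 < r → r < 1 →
      circleAverage (fun z => ‖Ufun D T γ u z‖ ^ 2) 0 r ≤ C * ‖u‖ ^ 2 := by
    intro u r hr0 hr1
    have hsub : sphere (0:ℂ) r ⊆ ball 0 1 := fun z hz => by
      rw [mem_sphere_zero_iff_norm] at hz; rw [mem_ball_zero_iff, hz]; exact hr1
    set G : ℂ → ℂ := fun z => 2 * inner ℂ u (D.res (ω z) u) - ((‖u‖ ^ 2 : ℝ) : ℂ) with hG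
    have hGd : DifferentiableOn ℂ G (ball 0 1) := by
      have h1 : DifferentiableOn ℂ (fun z => D.res (ω z)) (ball 0 1) :=
        D.differentiableOn_res.comp hωd fun z hz => by
          rw [mem_ball_zero_iff]; exact (hsel z hz).1
      have h2 : DifferentiableOn ℂ (fun z => (innerSL ℂ u) (D.res (ω z) u)) (ball 0 1) :=
        (innerSL ℂ u).differentiable.comp_differentiableOn
          (h1.clm_apply (differentiableOn_const u))
      exact (h2.const_mul 2).sub (differentiableOn_const _)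
    have hGcl : DiffContOnCl ℂ G (ball 0 |r|) := by
      rw [abs_of_pos hr0]
      exact (hGd.diffContOnCl_ball (closedBall_subset_ball hr1))
    have hGci : CircleIntegrable G 0 r :=
      ContinuousOn.circleIntegrable hr0.le (hGd.continuousOn.mono hsub)
    have hGre : circleAverage (fun z => (G z).re) 0 r = (G 0).re := by
      have := Complex.reCLM.circleAverage_comp_comm hGci
      rw [hGcl.circleAverage] at this
      exact this
    have hUd := differentiableOn_Ufun (γ := γ) D hcon u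
    have hle : circleAverage (fun z => ‖Ufun D T γ u z‖ ^ 2) 0 r
        ≤ circleAverage (fun z => (G z).re) 0 r := by
      refine circleAverage_mono ?_ ?_ ?_
      · exact ContinuousOn.circleIntegrable hr0.le ((hUd.continuousOn.mono hsub).norm.pow 2)
      · exact ContinuousOn.circleIntegrable hr0.le
          (Complex.continuous_re.comp_continuousOn (hGd.continuousOn.mono hsub))
      · intro z hz
        rw [abs_of_pos hr0] at hz
        obtain ⟨h1, h2⟩ := hsel z (hsub hz)
        rw [h2 u, norm_mul, mul_pow]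
        have h3 := D.norm_ev_sq_le h1 u
        have h4 : ‖ω z‖ ^ 2 ≤ 1 := pow_le_one₀ (norm_nonneg _) h1.le
        calc ‖ω z‖ ^ 2 * ‖D.ev (ω z) u‖ ^ 2 ≤ 1 * ‖D.ev (ω z) u‖ ^ 2 := by gcongr
          _ ≤ (G z).re := by rw [one_mul]; exact h3
    refine hle.trans ?_
    rw [hGre]
    have h5 : (G 0).re = 2 * (inner ℂ u (D.res (ω 0) u)).re - ‖u‖ ^ 2 := by
      rw [hG]
      simp only [Complex.sub_re, Complex.ofReal_re, Complex.mul_re]
      simp
    rw [h5]
    have h6 : (inner ℂ u (D.res (ω 0) u)).re ≤ ‖u‖ * (‖D.res (ω 0)‖ * ‖u‖) :=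
      calc (inner ℂ u (D.res (ω 0) u)).re ≤ ‖inner ℂ u (D.res (ω 0) u)‖ := Complex.re_le_norm _
        _ ≤ ‖u‖ * ‖D.res (ω 0) u‖ := norm_inner_le_norm _ _
        _ ≤ ‖u‖ * (‖D.res (ω 0)‖ * ‖u‖) := by gcongr; exact (D.res (ω 0)).le_opNorm u
    rw [hC]
    nlinarith [sq_nonneg ‖u‖]
  -- Step 2: Taylor coefficients
  set A : H →L[ℂ] H := -(resolvent T (0:ℂ)) with hA
  have hrec : ∀ u : H, ∀ lam ∈ ball (0:ℂ) 1,
      Ufun D T γ u lam = Ufun D T γ u 0 + lam * Ufun D T γ (A u) lam := by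
    intro u lam hlam
    have h := resolvent_identity hcon u hlam
    have hAu : A u = -(resolvent T (0:ℂ) u) := by rw [hA]; rfl
    unfold Ufun
    rw [hAu]
    conv_lhs => rw [h]
    rw [map_add, map_smul, smul_eq_mul]
    ring
  have hstep2 : ∀ n : ℕ, ∀ u : H, ∀ r : ℝ, 0 < r → r < 1 →
      r ^ (2 * n) * ‖Ufun D T γ ((A ^ n) u) 0‖ ^ 2
        ≤ circleAverage (fun z => ‖Ufun D T γ u z‖ ^ 2) 0 r := by
    intro n
    induction n with
    | zero =>
      intro u r hr0 hr1
      have h1 : circleAverage (fun z => ‖Ufun D T γ u z‖ ^ 2) 0 r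
          = circleAverage (fun z => ‖Ufun D T γ u 0 + z * Ufun D T γ (A u) z‖ ^ 2) 0 r := by
        refine circleAverage_congr_sphere fun z hz => ?_
        rw [abs_of_pos hr0, mem_sphere_zero_iff_norm] at hz
        change ‖Ufun D T γ u z‖ ^ 2 = _
        rw [hrec u z (by rw [mem_ball_zero_iff, hz]; exact hr1)]
      rw [h1, circleAverage_recurrence (differentiableOn_Ufun D hcon (A u)) _ hr0 hr1]
      have h2 : 0 ≤ circleAverage (fun z => ‖Ufun D T γ (A u) z‖ ^ 2) 0 r :=
        circleAverage_nonneg_of_nonneg fun z _ => by positivity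
      have h3 : 0 ≤ r ^ 2 * circleAverage (fun z => ‖Ufun D T γ (A u) z‖ ^ 2) 0 r := by positivity
      simpa using h3
    | succ n ih =>
      intro u r hr0 hr1
      have h1 : circleAverage (fun z => ‖Ufun D T γ u z‖ ^ 2) 0 r
          = circleAverage (fun z => ‖Ufun D T γ u 0 + z * Ufun D T γ (A u) z‖ ^ 2) 0 r := by
        refine circleAverage_congr_sphere fun z hz => ?_
        rw [abs_of_pos hr0, mem_sphere_zero_iff_norm] at hz
        change ‖Ufun D T γ u z‖ ^ 2 = _
        rw [hrec u z (by rw [mem_ball_zero_iff, hz]; exact hr1)]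
      rw [h1, circleAverage_recurrence (differentiableOn_Ufun D hcon (A u)) _ hr0 hr1]
      have h2 := ih (A u) r hr0 hr1
      have h3 : (A ^ (n + 1)) u = (A ^ n) (A u) := by rw [pow_succ, mul_apply_eq_comp]
      rw [h3]
      have h4 : r ^ (2 * (n + 1)) * ‖Ufun D T γ ((A ^ n) (A u)) 0‖ ^ 2
          = r ^ 2 * (r ^ (2 * n) * ‖Ufun D T γ ((A ^ n) (A u)) 0‖ ^ 2) := by ring
      rw [h4]
      have h5 : r ^ 2 * (r ^ (2 * n) * ‖Ufun D T γ ((A ^ n) (A u)) 0‖ ^ 2)
          ≤ r ^ 2 * circleAverage (fun z => ‖Ufun D T γ (A u) z‖ ^ 2) 0 r := by gcongr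
      nlinarith [sq_nonneg ‖Ufun D T γ u 0‖]
  -- Step 3: a uniform bound
  have hstep3 : ∀ n : ℕ, ∀ u : H, ‖Ufun D T γ ((A ^ n) u) 0‖ ^ 2 ≤ C * ‖u‖ ^ 2 := by
    intro n u
    have hlim : Tendsto (fun r : ℝ => r ^ (2 * n) * ‖Ufun D T γ ((A ^ n) u) 0‖ ^ 2) (𝓝[<] 1)
        (𝓝 (1 ^ (2 * n) * ‖Ufun D T γ ((A ^ n) u) 0‖ ^ 2)) := by
      refine Tendsto.mono_left ?_ nhdsWithin_le_nhds
      exact (Continuous.tendsto (by fun_prop) 1)
    rw [one_pow, one_mul] at hlim
    refine le_of_tendsto hlim ?_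
    filter_upwards [Ioo_mem_nhdsLT (show (0:ℝ) < 1 by norm_num)] with r hr
    exact (hstep2 n u r hr.1 hr.2).trans (hstep1 u r hr.1 hr.2)
  -- Step 4: conclude with the hypercyclic vector
  obtain ⟨x, hx⟩ := hyp
  have hu0 := spectrum.notMem_iff.1 (hcon 0 (by simp))
  have hTA : ∀ v, T (A v) = v := by
    intro v
    have h := Ring.mul_inverse_cancel _ hu0
    have h2 := congrArg (fun A : H →L[ℂ] H => A v) h
    simpa [hA, resolvent, sub_mul, mul_apply_eq_comp, Algebra.algebraMap_eq_smul_one] using h2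
  have hAT : ∀ v, A (T v) = v := by
    intro v
    have h := Ring.inverse_mul_cancel _ hu0
    have h2 := congrArg (fun A : H →L[ℂ] H => A v) h
    have h3 : (resolvent T (0:ℂ)) (-(T v)) = v := by
      simpa [resolvent, mul_apply_eq_comp, Algebra.algebraMap_eq_smul_one] using h2
    rw [map_neg] at h3
    exact h3
  have hApow : ∀ k : ℕ, ∀ v, (A ^ k) ((T ^ k) v) = v := by
    intro k
    induction k with
    | zero => intro v; simp
    | succ k ih =>
      intro v
      rw [pow_succ, mul_apply_eq_comp, pow_succ', mul_apply_eq_comp, hAT, ih]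
  have hTpow : ∀ k : ℕ, ∀ v, (T ^ k) ((A ^ k) v) = v := by
    intro k
    induction k with
    | zero => intro v; simp
    | succ k ih =>
      intro v
      rw [pow_succ, mul_apply_eq_comp, pow_succ', mul_apply_eq_comp, hTA, ih]
  set L : H → ℂ := fun v => Ufun D T γ v 0 with hL
  have hLT : ∀ v, L (T v) = -(γ * D.ev 0 v) := by
    intro v
    have h1 : resolvent T (0:ℂ) (T v) = -v := by
      have := hAT v
      have h2 : A (T v) = -(resolvent T (0:ℂ) (T v)) := rfl
      rw [h2] at this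
      rw [neg_eq_iff_eq_neg] at this
      exact this
    change γ * D.ev 0 (resolvent T (0:ℂ) (T v)) = _
    rw [h1, map_neg]; ring
  have hLc : Continuous L := by
    have : L = fun v => γ * (D.ev 0 ∘L resolvent T (0:ℂ)) v := rfl
    rw [this]; fun_prop
  -- an orbit point where `L` is large
  have hopen1 : IsOpen {v : H | Real.sqrt C < ‖L v‖} :=
    isOpen_lt continuous_const (hLc.norm)
  have hne1 : {v : H | Real.sqrt C < ‖L v‖}.Nonempty := by
    refine ⟨T (((Real.sqrt C + 1 : ℝ) / γ : ℂ) • D.e), ?_⟩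
    change Real.sqrt C < ‖L _‖
    rw [hLT, map_smul, D.ev_e (by simp), smul_eq_mul, mul_one, mul_div_cancel₀ _ hγ, norm_neg,
      Complex.norm_real, Real.norm_of_nonneg (by positivity)]
    linarith
  obtain ⟨_, hm1, ⟨m, rfl⟩⟩ := hx.inter_open_nonempty _ hopen1 hne1
  -- a later orbit point of norm less than one
  have hdense2 : Dense ((T ^ (m + 1)) '' Set.range fun n : ℕ => (T ^ n) x) := by
    have hsurj : Function.Surjective (T ^ (m + 1)) := fun v => ⟨(A ^ (m + 1)) v, hTpow _ v⟩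
    exact hsurj.denseRange.dense_image (T ^ (m + 1)).continuous hx
  obtain ⟨_, hm2, ⟨_, ⟨k, rfl⟩, rfl⟩⟩ := hdense2.inter_open_nonempty (ball 0 1) isOpen_ball
    ⟨0, by simp⟩
  rw [mem_ball_zero_iff] at hm2
  have hkey := hstep3 (k + 1) ((T ^ (m + 1)) ((T ^ k) x))
  have hcomb : (A ^ (k + 1)) ((T ^ (m + 1)) ((T ^ k) x)) = (T ^ m) x := by
    have : (T ^ (m + 1)) ((T ^ k) x) = (T ^ (k + 1)) ((T ^ m) x) := by
      rw [← mul_apply_eq_comp, ← mul_apply_eq_comp, ← pow_add, ← pow_add]
      congr 2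
      ring
    rw [this, hApow]
  rw [hcomb] at hkey
  have hm1' : Real.sqrt C < ‖Ufun D T γ ((T ^ m) x) 0‖ := hm1
  have h1 : C < ‖Ufun D T γ ((T ^ m) x) 0‖ ^ 2 := by
    have := Real.sq_sqrt hC0
    nlinarith [Real.sqrt_nonneg C]
  have h2 : C * ‖(T ^ (m + 1)) ((T ^ k) x)‖ ^ 2 ≤ C := by
    have h3 : ‖(T ^ (m + 1)) ((T ^ k) x)‖ ^ 2 ≤ 1 := pow_le_one₀ (norm_nonneg _) hm2.le
    nlinarith
  linarith

end

end Pool.Agent.Lib.MP_895317_an
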