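import Mathlib
import Pool.Agent.Lib.MP_895317_an.Coef
import Pool.Agent.Lib.MP_895317_an.Dynamics

/-!
# Matrix coefficients of `T_Φ`, `Φ(z) = γ/z + φ(z)`
-/

open MeasureTheory AddCircle Set Filter Topology Metric
open scoped ENNReal ComplexConjugate

namespace Pool.Agent.Lib.MP_895317_an

/-- Power series of the evaluation functionals. -/
theorem ShiftData.hasSum_ev {H : Type*} [NormedAddCommGroup H] [InnerProductSpace ℂ H]
    [CompleteSpace H] (D : ShiftData H) {z : ℂ} (hz : ‖z‖ < 1) (f : H) :
    HasSum (fun n : ℕ => z ^ n * inner ℂ D.e ((D.B ^ n) f)) (D.ev z f) := by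
  have hBn : ∀ n : ℕ, ∀ g : H, ‖(D.B ^ n) g‖ ≤ ‖g‖ := by
    intro n
    induction n with
    | zero => intro g; simp
    | succ n ih =>
      intro g
      rw [pow_succ', mul_apply_eq_comp]
      exact (D.norm_B_le _).trans (ih g)
  have hsum : Summable (fun n : ℕ => z ^ n * inner ℂ D.e ((D.B ^ n) f)) := by
    refine Summable.of_norm_bounded (g := fun n => ‖z‖ ^ n * ‖f‖)
      ((summable_geometric_of_lt_one (norm_nonneg _) hz).mul_right _) fun n => ?_
    rw [norm_mul, norm_pow]
    have h1 := norm_inner_le_norm (𝕜 := ℂ) D.e ((D.B ^ n) f)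
    rw [D.norm_e, one_mul] at h1
    have h2 := h1.trans (hBn n f)
    gcongr
  rw [hsum.hasSum_iff_tendsto_nat]
  have hpart : ∀ N : ℕ, ∑ n ∈ Finset.range N, z ^ n * inner ℂ D.e ((D.B ^ n) f)
      = D.ev z f - z ^ N * D.ev z ((D.B ^ N) f) := by
    intro N
    induction N with
    | zero => simp
    | succ N ih =>
      rw [Finset.sum_range_succ, ih]
      have h := D.ev_B hz ((D.B ^ N) f)
      rw [D.ev_zero] at h
      rw [pow_succ' D.B, mul_apply_eq_comp, pow_succ]
      linear_combination z ^ N * h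
  simp_rw [hpart]
  have hlim : Tendsto (fun N : ℕ => z ^ N * D.ev z ((D.B ^ N) f)) atTop (𝓝 0) := by
    rw [tendsto_zero_iff_norm_tendsto_zero]
    have hb : ∀ N : ℕ, ‖z ^ N * D.ev z ((D.B ^ N) f)‖ ≤ ‖z‖ ^ N * (‖D.ev z‖ * ‖f‖) := by
      intro N
      rw [norm_mul, norm_pow]
      have := (D.ev z).le_opNorm ((D.B ^ N) f)
      have h2 := hBn N f
      have h3 : ‖D.ev z ((D.B ^ N) f)‖ ≤ ‖D.ev z‖ * ‖f‖ :=
        this.trans (by gcongr)
      gcongr
    refine squeeze_zero (fun _ => norm_nonneg _) hb ?_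
    have := (tendsto_pow_atTop_nhds_zero_of_lt_one (norm_nonneg z) hz).mul_const
      (‖D.ev z‖ * ‖f‖)
    simpa using this
  simpa using tendsto_const_nhds.sub hlim

/-- Taylor coefficients at the origin. -/
noncomputable def taylor (φ : ℂ → ℂ) (k : ℕ) : ℂ := (Nat.factorial k : ℂ)⁻¹ * iteratedDeriv k φ 0

theorem hasSum_taylor {φ : ℂ → ℂ} (hφ : DifferentiableOn ℂ φ (ball 0 1)) {z : ℂ} (hz : ‖z‖ < 1) :
    HasSum (fun k : ℕ => taylor φ k * z ^ k) (φ z) := by
  have h := Complex.hasSum_taylorSeries_on_ball hφ (show z ∈ ball 0 1 by simpa using hz)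
  refine h.congr_fun fun k => ?_
  rw [sub_zero, smul_eq_mul, smul_eq_mul, taylor]
  ring

theorem coef_conv_eq (φ : ℂ → ℂ) (f : H2) (n : ℤ) (r : ℝ) (k : ℕ) (hk : k ∉ Finset.range (n.toNat + 1)) :
    taylor φ k * (r : ℂ) ^ k * coef (n - k) f.incl = 0 := by
  rw [Finset.mem_range, not_lt] at hk
  rw [coef_incl_neg f (by omega), mul_zero]

variable {γ : ℂ} {φ : ℂ → ℂ}

/-- Matrix coefficients of the multiplication by `x ↦ Φ(r e^{2πix})`, for `r < 1`. -/
theorem integral_radius (hφ : DifferentiableOn ℂ φ (ball 0 1)) (f : H2) (n : ℤ) {r : ℝ}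
    (hr0 : 0 < r) (hr1 : r < 1) :
    ∫ x, fourier (-n) x * (symbolFun γ φ ((r : ℂ) * fourier 1 x) * f.incl.val x)
        ∂(haarAddCircle : Measure UnitAddCircle)
      = γ / r * coef (n + 1) f.incl
        + ∑ k ∈ Finset.range (n.toNat + 1), taylor φ k * (r : ℂ) ^ k * coef (n - k) f.incl := by
  have hfint : Integrable f.incl.val (haarAddCircle : Measure UnitAddCircle) :=
    f.incl.memLp.integrable (by norm_num)
  have hmono : ∀ m : ℤ, Integrable (fun x => (fourier m x : ℂ) * f.incl.val x)
      (haarAddCircle : Measure UnitAddCircle) := by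
    intro m
    refine hfint.bdd_mul (c := 1) (fourier m).continuous.aestronglyMeasurable
      (Eventually.of_forall fun x => ?_)
    rw [fourier_apply]; simp
  have hr0' : (r : ℂ) ≠ 0 := by exact_mod_cast hr0.ne'
  have hnorm_f : ∀ (m : ℤ) (x : UnitAddCircle), ‖(fourier m x : ℂ)‖ = 1 := by
    intro m x; rw [fourier_apply]; simp
  have hpt : ∀ x : UnitAddCircle, ‖(r : ℂ) * fourier 1 x‖ < 1 := by
    intro x
    rw [norm_mul, hnorm_f, mul_one, Complex.norm_real, Real.norm_of_nonneg hr0.le]
    exact hr1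
  -- the termwise functions
  set F : ℕ → UnitAddCircle → ℂ := fun k x =>
    taylor φ k * (r : ℂ) ^ k * (fourier ((k : ℤ) - n) x * f.incl.val x) with hF
  have hFint : ∀ k, Integrable (F k) (haarAddCircle : Measure UnitAddCircle) :=
    fun k => (hmono _).const_mul _
  have hsumm : Summable (fun k : ℕ => ‖taylor φ k * (r : ℂ) ^ k‖) := by
    have := (hasSum_taylor hφ (z := (r : ℂ)) (by
      rw [Complex.norm_real, Real.norm_of_nonneg hr0.le]; exact hr1)).summable
    exact this.norm
  have hFnorm : ∀ k, ∫ x, ‖F k x‖ ∂(haarAddCircle : Measure UnitAddCircle)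
      = ‖taylor φ k * (r : ℂ) ^ k‖ * ∫ x, ‖f.incl.val x‖ ∂(haarAddCircle : Measure UnitAddCircle) := by
    intro k
    rw [← integral_const_mul]
    refine integral_congr_ae (Eventually.of_forall fun x => ?_)
    change ‖taylor φ k * (r : ℂ) ^ k * (fourier ((k : ℤ) - n) x * f.incl.val x)‖ = _
    rw [norm_mul, norm_mul (fourier ((k : ℤ) - n) x), hnorm_f, one_mul]
  have hFsumm : Summable (fun k => ∫ x, ‖F k x‖ ∂(haarAddCircle : Measure UnitAddCircle)) := by
    simp_rw [hFnorm]
    exact hsumm.mul_right _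
  have h1 := hasSum_integral_of_summable_integral_norm hFint hFsumm
  have hFval : ∀ k, ∫ x, F k x ∂(haarAddCircle : Measure UnitAddCircle)
      = taylor φ k * (r : ℂ) ^ k * coef (n - k) f.incl := by
    intro k
    rw [coef_eq_integral, ← integral_const_mul]
    refine integral_congr_ae (Eventually.of_forall fun x => ?_)
    change taylor φ k * (r : ℂ) ^ k * (fourier ((k : ℤ) - n) x * f.incl.val x) = _
    rw [show -(n - (k:ℤ)) = (k : ℤ) - n by ring]
  have h2 : ∫ x, (∑' k, F k x) ∂(haarAddCircle : Measure UnitAddCircle)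
      = ∑ k ∈ Finset.range (n.toNat + 1), taylor φ k * (r : ℂ) ^ k * coef (n - k) f.incl := by
    have h3 : HasSum (fun k => ∫ x, F k x ∂(haarAddCircle : Measure UnitAddCircle))
        (∑ k ∈ Finset.range (n.toNat + 1), taylor φ k * (r : ℂ) ^ k * coef (n - k) f.incl) := by
      simp_rw [hFval]
      exact hasSum_sum_of_ne_finset_zero fun k hk => coef_conv_eq φ f n r k hk
    exact h1.unique h3
  have hFsum : ∀ x, ∑' k, F k x
      = fourier (-n) x * (φ ((r : ℂ) * fourier 1 x) * f.incl.val x) := by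
    intro x
    have h4 := (hasSum_taylor hφ (hpt x)).mul_left ((fourier (-n) x : ℂ) * f.incl.val x)
    refine HasSum.tsum_eq ?_
    have h5 : fourier (-n) x * (φ ((r : ℂ) * fourier 1 x) * f.incl.val x)
        = (fourier (-n) x : ℂ) * f.incl.val x * φ ((r : ℂ) * fourier 1 x) := by ring
    rw [h5]
    refine h4.congr_fun fun k => ?_
    change taylor φ k * (r : ℂ) ^ k * (fourier ((k : ℤ) - n) x * f.incl.val x) = _
    have h6 : (fourier ((k : ℤ) - n) x : ℂ) = fourier (-n) x * fourier 1 x ^ k := by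
      have h7 : (fourier (k : ℤ) x : ℂ) = fourier 1 x ^ k := by
        induction k with
        | zero => simp
        | succ k ih => rw [Nat.cast_succ, fourier_add, ih, pow_succ]
      rw [← h7, ← fourier_add]
      congr 2
      ring
    rw [h6, mul_pow]
    ring
  have hsplit : ∀ x, fourier (-n) x * (symbolFun γ φ ((r : ℂ) * fourier 1 x) * f.incl.val x)
      = γ / r * (fourier (-(n + 1)) x * f.incl.val x)
        + fourier (-n) x * (φ ((r : ℂ) * fourier 1 x) * f.incl.val x) := by
    intro x
    have h8 : (fourier (-(n + 1)) x : ℂ) = fourier (-n) x * (fourier 1 x)⁻¹ := by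
      have h9 : (fourier (-n) x : ℂ) = fourier (-(n + 1)) x * fourier 1 x := by
        rw [← fourier_add]; congr 2; ring
      have h10 : (fourier 1 x : ℂ) ≠ 0 := by
        intro h0
        have := hnorm_f 1 x
        rw [h0, norm_zero] at this
        exact zero_ne_one this
      rw [h9, mul_assoc, mul_inv_cancel₀ h10, mul_one]
    have h10 : (fourier 1 x : ℂ) ≠ 0 := by
      intro h0
      have := hnorm_f 1 x
      rw [h0, norm_zero] at this
      exact zero_ne_one this
    rw [h8]
    unfold symbolFun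
    field_simp
  have hint2 : Integrable (fun x => fourier (-n) x * (φ ((r : ℂ) * fourier 1 x) * f.incl.val x))
      (haarAddCircle : Measure UnitAddCircle) := by
    have hcont : Continuous fun x : UnitAddCircle => φ ((r : ℂ) * fourier 1 x) := by
      refine hφ.continuousOn.comp_continuous (by fun_prop) fun x => ?_
      rw [mem_ball_zero_iff]
      exact hpt x
    have hcont2 : Continuous fun x : UnitAddCircle =>
        (fourier (-n) x : ℂ) * φ ((r : ℂ) * fourier 1 x) := (fourier (-n)).continuous.mul hcont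
    obtain ⟨M, hM⟩ := isCompact_univ.exists_bound_of_continuousOn hcont2.continuousOn
    have h11 : Integrable (fun x => ((fourier (-n) x : ℂ) * φ ((r : ℂ) * fourier 1 x))
        * f.incl.val x) (haarAddCircle : Measure UnitAddCircle) := by
      refine hfint.bdd_mul (c := M) ?_ (Eventually.of_forall fun x => hM x (mem_univ x))
      exact hcont2.aestronglyMeasurable
    refine h11.congr (Eventually.of_forall fun x => ?_)
    change (fourier (-n) x : ℂ) * φ ((r : ℂ) * fourier 1 x) * f.incl.val x = _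
    ring
  simp_rw [hsplit]
  rw [integral_add ((hmono _).const_mul _) hint2, integral_const_mul, ← coef_eq_integral]
  congr 1
  rw [← h2]
  exact integral_congr_ae (Eventually.of_forall fun x => (hFsum x).symm)

/-- Matrix coefficients of the multiplication by the boundary function of `Φ`. -/
theorem coef_mul_symbol (hφ : DifferentiableOn ℂ φ (ball 0 1))
    (hb : ∃ M : ℝ, ∀ z ∈ ball (0:ℂ) 1, ‖φ z‖ ≤ M) {ψ : UnitAddCircle → ℂ}
    (hψ : MemLp ψ ∞ haarAddCircle) (hbd : IsBoundaryFunction ψ (symbolFun γ φ)) (f : H2) (n : ℤ) :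
    coef n (mulFun ψ hψ f.incl) = γ * coef (n + 1) f.incl
      + ∑ k ∈ Finset.range (n.toNat + 1), taylor φ k * coef (n - k) f.incl := by
  obtain ⟨M, hM⟩ := hb
  have hfint : Integrable f.incl.val (haarAddCircle : Measure UnitAddCircle) :=
    f.incl.memLp.integrable (by norm_num)
  have hnorm_f : ∀ (m : ℤ) (x : UnitAddCircle), ‖(fourier m x : ℂ)‖ = 1 := by
    intro m x; rw [fourier_apply]; simp
  rw [coef_mulFun]
  -- limit of the left side
  have hlim1 : Tendsto (fun r : ℝ => ∫ x, fourier (-n) x *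
        (symbolFun γ φ ((r : ℂ) * fourier 1 x) * f.incl.val x)
        ∂(haarAddCircle : Measure UnitAddCircle)) (𝓝[<] 1)
      (𝓝 (∫ x, fourier (-n) x * (ψ x * f.incl.val x)
        ∂(haarAddCircle : Measure UnitAddCircle))) := by
    refine tendsto_integral_filter_of_dominated_convergence
      (fun x => (2 * ‖γ‖ + M) * ‖f.incl.val x‖) ?_ ?_ (hfint.norm.const_mul _) ?_
    · filter_upwards [Ioo_mem_nhdsLT (show (0:ℝ) < 1 by norm_num)] with r hr
      have hcont : Continuous fun x : UnitAddCircle => symbolFun γ φ ((r : ℂ) * fourier 1 x) := by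
        have hne : ∀ x : UnitAddCircle, (r : ℂ) * fourier 1 x ≠ 0 := by
          intro x h0
          have h1 : ‖(r : ℂ) * fourier 1 x‖ = r := by
            rw [norm_mul, hnorm_f, mul_one, Complex.norm_real, Real.norm_of_nonneg hr.1.le]
          rw [h0, norm_zero] at h1
          exact hr.1.ne h1
        have h2 : Continuous fun x : UnitAddCircle => φ ((r : ℂ) * fourier 1 x) := by
          refine hφ.continuousOn.comp_continuous (by fun_prop) fun x => ?_
          rw [mem_ball_zero_iff, norm_mul, hnorm_f, mul_one, Complex.norm_real,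
            Real.norm_of_nonneg hr.1.le]
          exact hr.2
        have h3 : Continuous fun x : UnitAddCircle => γ / ((r : ℂ) * fourier 1 x) :=
          continuous_const.div (by fun_prop) hne
        exact h3.add h2
      exact (fourier (-n)).continuous.aestronglyMeasurable.mul
        (hcont.aestronglyMeasurable.mul hfint.aestronglyMeasurable)
    · filter_upwards [Ioo_mem_nhdsLT (show (1/2:ℝ) < 1 by norm_num)] with r hr
      refine Eventually.of_forall fun x => ?_
      have hr0 : 0 < r := by linarith [hr.1]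
      rw [norm_mul, hnorm_f, one_mul, norm_mul]
      have h4 : ‖symbolFun γ φ ((r : ℂ) * fourier 1 x)‖ ≤ 2 * ‖γ‖ + M := by
        unfold symbolFun
        refine (norm_add_le _ _).trans ?_
        have h5 : ‖(r : ℂ) * fourier 1 x‖ = r := by
          rw [norm_mul, hnorm_f, mul_one, Complex.norm_real, Real.norm_of_nonneg hr0.le]
        have h6 : ‖γ / ((r : ℂ) * fourier 1 x)‖ ≤ 2 * ‖γ‖ := by
          rw [norm_div, h5, div_le_iff₀ hr0]
          nlinarith [norm_nonneg γ, hr.1]
        have h7 : ‖φ ((r : ℂ) * fourier 1 x)‖ ≤ M :=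
          hM _ (by rw [mem_ball_zero_iff, h5]; exact hr.2)
        linarith
      gcongr
    · filter_upwards [hbd] with x hx
      exact (hx.mul_const _).const_mul _
  -- limit of the right side
  have hlim2 : Tendsto (fun r : ℝ => γ / (r : ℂ) * coef (n + 1) f.incl
        + ∑ k ∈ Finset.range (n.toNat + 1), taylor φ k * (r : ℂ) ^ k * coef (n - k) f.incl)
      (𝓝[<] 1) (𝓝 (γ / ((1 : ℝ) : ℂ) * coef (n + 1) f.incl
        + ∑ k ∈ Finset.range (n.toNat + 1),
          taylor φ k * (((1 : ℝ) : ℂ)) ^ k * coef (n - k) f.incl)) := by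
    refine Tendsto.mono_left ?_ nhdsWithin_le_nhds
    have hc : ContinuousAt (fun r : ℝ => γ / (r : ℂ) * coef (n + 1) f.incl
        + ∑ k ∈ Finset.range (n.toNat + 1), taylor φ k * (r : ℂ) ^ k * coef (n - k) f.incl) 1 := by
      refine ContinuousAt.add ?_ ?_
      · refine ContinuousAt.mul ?_ continuousAt_const
        exact continuousAt_const.div Complex.continuous_ofReal.continuousAt (by simp)
      · exact Continuous.continuousAt (by fun_prop)
    exact hc.tendsto
  have hlim3 : Tendsto (fun r : ℝ => ∫ x, fourier (-n) x *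
        (symbolFun γ φ ((r : ℂ) * fourier 1 x) * f.incl.val x)
        ∂(haarAddCircle : Measure UnitAddCircle)) (𝓝[<] 1)
      (𝓝 (γ / ((1 : ℝ) : ℂ) * coef (n + 1) f.incl
        + ∑ k ∈ Finset.range (n.toNat + 1),
          taylor φ k * (((1 : ℝ) : ℂ)) ^ k * coef (n - k) f.incl)) := by
    refine hlim2.congr' ?_
    filter_upwards [Ioo_mem_nhdsLT (show (0:ℝ) < 1 by norm_num)] with r hr
    exact (integral_radius hφ f n hr.1 hr.2).symm
  have := tendsto_nhds_unique hlim1 hlim3
  rw [this]
  simp

/-- The Toeplitz operator `T_Φ` acts by `z (T f)(z) = (γ + z φ(z)) f(z) - γ f(0)`. -/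
theorem actsAs_toeplitz (hφ : DifferentiableOn ℂ φ (ball 0 1))
    (hb : ∃ M : ℝ, ∀ z ∈ ball (0:ℂ) 1, ‖φ z‖ ≤ M) {ψ : UnitAddCircle → ℂ}
    (hψ : MemLp ψ ∞ haarAddCircle) (hbd : IsBoundaryFunction ψ (symbolFun γ φ)) :
    ActsAs hardyShift (toeplitz ψ hψ) γ φ := by
  intro z hz f
  have hc : ∀ (g : H2) (n : ℕ), inner ℂ hardyShift.e ((hardyShift.B ^ n) g) = coef n g.incl := by
    intro g n
    have h := coef_shiftB_pow g n 0
    simp only [Nat.cast_zero, zero_add] at h
    exact h
  have hev : ∀ g : H2, HasSum (fun n : ℕ => z ^ n * coef n g.incl) (hardyShift.ev z g) := by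
    intro g
    have h := hardyShift.hasSum_ev hz g
    simp_rw [hc] at h
    exact h
  set T := toeplitz ψ hψ with hT
  set Mf : H2 := T f - γ • hardyShift.B f with hMf
  have hcoefM : ∀ n : ℕ, coef n Mf.incl
      = ∑ k ∈ Finset.range (n + 1), taylor φ k * coef ((n - k : ℕ) : ℤ) f.incl := by
    intro n
    have h0 : Mf.incl = (T f).incl - γ • (shiftB f).incl := rfl
    rw [h0, coef_sub, coef_smul, coef_shiftB, hT, coef_toeplitz,
      coef_mul_symbol hφ hb hψ hbd f n]
    rw [add_sub_cancel_left]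
    simp only [Int.toNat_natCast]
    refine Finset.sum_congr rfl fun k hk => ?_
    rw [Nat.cast_sub (by simpa [Nat.lt_succ_iff] using hk)]
  have hprod : hardyShift.ev z Mf = φ z * hardyShift.ev z f := by
    have h1 := hasSum_taylor hφ hz
    have h2 := hev f
    have h3 := tsum_mul_tsum_eq_tsum_sum_range_of_summable_norm h1.summable.norm h2.summable.norm
    rw [h1.tsum_eq, h2.tsum_eq] at h3
    rw [h3, ← (hev Mf).tsum_eq]
    refine tsum_congr fun n => ?_
    rw [hcoefM, Finset.mul_sum]
    refine Finset.sum_congr rfl fun k hk => ?_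
    have hk' : k ≤ n := by simpa [Nat.lt_succ_iff] using hk
    have h4 : z ^ n = z ^ k * z ^ (n - k) := by rw [← pow_add, Nat.add_sub_cancel' hk']
    rw [h4]; ring
  have hTf : T f = Mf + γ • hardyShift.B f := by rw [hMf]; abel
  rw [hTf, map_add, map_smul, hprod, smul_eq_mul]
  have h5 := hardyShift.ev_B hz f
  linear_combination γ * h5

end Pool.Agent.Lib.MP_895317_an
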