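import Mathlib
import Pool.Agent.Lib.MP_895317_an.Symbol
import Pool.Agent.Lib.MP_895317_an.Meets

/-!
# Main theorem
-/

open MeasureTheory AddCircle Set Filter Topology Metric
open scoped ENNReal ComplexConjugate

namespace Pool.Agent.Lib.MP_895317_an

theorem norm_incl_add_monomial (g : H2) (c : ℂ) :
    ‖g.incl + c • monomial (-1)‖ ^ 2 = ‖g‖ ^ 2 + ‖c‖ ^ 2 := by
  have h1 : inner ℂ (c • monomial (-1)) g.incl = 0 := by
    refine (inner_smul_left (𝕜 := ℂ) (monomial (-1)) g.incl c).trans ?_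
    have h0 : inner ℂ (monomial (-1)) g.incl = 0 := coef_incl_neg g (by norm_num)
    exact (congrArg (fun t => conj c * t) h0).trans (mul_zero _)
  have h := norm_add_sq_eq_norm_sq_add_norm_sq_of_inner_eq_zero _ _ h1
  rw [add_comm, sq, h, norm_smul, norm_monomial, mul_one, incl_norm]
  ring

variable {γ : ℂ} {φ : ℂ → ℂ}

/-- If `Φ` is injective in the punctured disc then near the unit circle it stays away from each of
its values. -/
theorem away_from_value (hφ : DifferentiableOn ℂ φ (ball 0 1))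
    (hinj : InjOn (symbolFun γ φ) (ball 0 1 \ {0})) {w : ℂ} (hw : w ∈ ball (0:ℂ) 1 \ {0}) :
    ∃ δ > 0, ∃ ρ < (1:ℝ), 0 ≤ ρ ∧ ∀ z : ℂ, ρ < ‖z‖ → ‖z‖ < 1 →
      δ ≤ ‖symbolFun γ φ z - symbolFun γ φ w‖ := by
  have hopen : IsOpen (ball (0:ℂ) 1 \ {0}) := isOpen_ball.sdiff isClosed_singleton
  have hd : DifferentiableOn ℂ (symbolFun γ φ) (ball (0:ℂ) 1 \ {0}) := by
    unfold symbolFun
    refine DifferentiableOn.add ?_ (hφ.mono sdiff_subset)
    exact (differentiableOn_const γ).div differentiableOn_id fun z hz => by simpa using hz.2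
  have han : AnalyticAt ℂ (symbolFun γ φ) w := hd.analyticAt (hopen.mem_nhds hw)
  have hw1 : ‖w‖ < 1 := by simpa using hw.1
  -- a radius `ρ` with `‖w‖ < ρ < 1`
  obtain ⟨ρ, hρ1, hρ2⟩ := exists_between hw1
  set V : Set ℂ := ball (0:ℂ) ρ \ {0} with hV
  have hVopen : IsOpen V := isOpen_ball.sdiff isClosed_singleton
  have hwV : w ∈ V := ⟨by simpa using hρ1, hw.2⟩
  have hVsub : V ⊆ ball (0:ℂ) 1 \ {0} := sdiff_subset_sdiff_left (ball_subset_ball hρ2.le)
  have hnot : ¬ ∀ᶠ z in 𝓝 w, symbolFun γ φ z = symbolFun γ φ w := by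
    intro h
    have h1 : ∀ᶠ z in 𝓝 w, z = w := by
      filter_upwards [h, hVopen.mem_nhds hwV] with z hz1 hz2
      exact hinj (hVsub hz2) hw hz1
    have h2 : ∀ᶠ z in 𝓝[≠] w, z = w := h1.filter_mono nhdsWithin_le_nhds
    have h3 : ∀ᶠ z in 𝓝[≠] w, z ≠ w := self_mem_nhdsWithin
    obtain ⟨z, hz⟩ := (h2.and h3).exists
    exact hz.2 hz.1
  have hmap := han.eventually_constant_or_nhds_le_map_nhds.resolve_left hnot
  have himg : symbolFun γ φ '' V ∈ 𝓝 (symbolFun γ φ w) :=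
    hmap (image_mem_map (hVopen.mem_nhds hwV))
  obtain ⟨δ, hδ0, hδ⟩ := Metric.mem_nhds_iff.1 himg
  have hρ0 : 0 ≤ ρ := (norm_nonneg w).trans hρ1.le
  refine ⟨δ, hδ0, ρ, hρ2, hρ0, fun z hz1 hz2 => ?_⟩
  by_contra hlt
  push Not at hlt
  have hmem : symbolFun γ φ z ∈ ball (symbolFun γ φ w) δ := by
    rw [mem_ball, dist_eq_norm]; exact hlt
  obtain ⟨z', hz', heq⟩ := hδ hmem
  have hz0 : z ∈ ball (0:ℂ) 1 \ {0} := by
    refine ⟨by simpa using hz2, ?_⟩
    intro h0
    have h0' : z = 0 := h0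
    rw [h0', norm_zero] at hz1
    linarith
  have hzz : z' = z := hinj (hVsub hz') hz0 heq
  have h4 : ‖z'‖ < ρ := by simpa using hz'.1
  rw [hzz] at h4
  linarith

/-- Hypercyclic operators have no eigenvalues of the adjoint: `lam - T` has dense range. -/
theorem dense_range_of_hypercyclic {H : Type*} [NormedAddCommGroup H] [InnerProductSpace ℂ H]
    [CompleteSpace H] {T : H →L[ℂ] H} (hyp : IsHypercyclic T) (lam : ℂ) :
    (LinearMap.range (algebraMap ℂ (H →L[ℂ] H) lam - T).toLinearMap).topologicalClosure = ⊤ := by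
  rw [Submodule.topologicalClosure_eq_top_iff, Submodule.eq_bot_iff]
  intro y hy
  by_contra hy0
  rw [Submodule.mem_orthogonal'] at hy
  refine not_hypercyclic_of_eigenfunctional T (innerSL ℂ y) lam ⟨y, ?_⟩ (fun f => ?_) hyp
  · simpa using hy0
  · have h := hy ((algebraMap ℂ (H →L[ℂ] H) lam - T) f) ⟨f, rfl⟩
    have h2 : (algebraMap ℂ (H →L[ℂ] H) lam - T) f = lam • f - T f := by
      simp [Algebra.algebraMap_eq_smul_one]
    rw [h2, inner_sub_right, inner_smul_right] at h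
    change inner ℂ y (T f) = lam * inner ℂ y f
    linear_combination -h

variable {ψ : UnitAddCircle → ℂ}

/-- The values of `Φ` in the punctured disc are not in the spectrum of a hypercyclic `T_Φ`. -/
theorem notMem_spectrum_of_value (hφ : DifferentiableOn ℂ φ (ball 0 1))
    (hb : ∃ M : ℝ, ∀ z ∈ ball (0:ℂ) 1, ‖φ z‖ ≤ M)
    (hψ : MemLp ψ ∞ haarAddCircle) (hbd : IsBoundaryFunction ψ (symbolFun γ φ))
    (hyp : IsHypercyclic (toeplitz ψ hψ)) {w : ℂ} (hw : w ∈ ball (0:ℂ) 1 \ {0}) :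
    symbolFun γ φ w ∉ spectrum ℂ (toeplitz ψ hψ) := by
  have hT := actsAs_toeplitz hφ hb hψ hbd
  set T := toeplitz ψ hψ with hTdef
  have hinj := injOn_symbolFun hardyShift hT hyp
  obtain ⟨δ, hδ0, ρ, hρ1, hρ0, hδ⟩ := away_from_value hφ hinj hw
  set lam := symbolFun γ φ w with hlam
  have hw1 : ‖w‖ < 1 := by simpa using hw.1
  have hw0 : w ≠ 0 := by simpa using hw.2
  have hnorm_f : ∀ (m : ℤ) (x : UnitAddCircle), ‖(fourier m x : ℂ)‖ = 1 := by
    intro m x; rw [fourier_apply]; simp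
  -- the boundary function stays away from `lam`
  have hae : ∀ᵐ x ∂(haarAddCircle : Measure UnitAddCircle), δ ≤ ‖ψ x - lam‖ := by
    filter_upwards [hbd] with x hx
    have h1 : Tendsto (fun r : ℝ => ‖symbolFun γ φ ((r : ℂ) * fourier 1 x) - lam‖) (𝓝[<] 1)
        (𝓝 ‖ψ x - lam‖) := (hx.sub_const lam).norm
    refine ge_of_tendsto h1 ?_
    filter_upwards [Ioo_mem_nhdsLT hρ1] with r hr
    have hr0 : 0 ≤ r := hρ0.trans hr.1.le
    have h2 : ‖(r : ℂ) * fourier 1 x‖ = r := by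
      rw [norm_mul, hnorm_f, mul_one, Complex.norm_real, Real.norm_of_nonneg hr0]
    exact hδ _ (by rw [h2]; exact hr.1) (by rw [h2]; exact hr.2)
  have hψ' : MemLp (fun x => ψ x - lam) ∞ (haarAddCircle : Measure UnitAddCircle) :=
    hψ.sub (memLp_const lam)
  have hmul : ∀ f : H2, mulFun _ hψ' f.incl = mulFun ψ hψ f.incl - lam • f.incl := by
    intro f
    apply Lp.ext
    have h1 := val_mulFun hψ' f.incl
    have h2 := val_mulFun hψ f.incl
    have h3 := Lp.coeFn_sub (mulFun ψ hψ f.incl).toLp (lam • f.incl).toLp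
    have h4 := Lp.coeFn_smul lam f.incl.toLp
    filter_upwards [h1, h2, h3, h4] with x h1 h2 h3 h4
    refine Eq.trans h1 ?_
    refine Eq.trans ?_ h3.symm
    change (ψ x - lam) * f.incl.val x
      = (mulFun ψ hψ f.incl).val x - (lam • f.incl).toLp x
    have h4' : (lam • f.incl).toLp x = lam • f.incl.val x := h4
    rw [h2, h4', smul_eq_mul]
    ring
  have hdecomp : ∀ f : H2, mulFun _ hψ' f.incl
      = (T f - lam • f).incl + (γ * coef 0 f.incl) • monomial (-1) := by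
    intro f
    rw [hmul]
    apply L2T.ext_coef
    intro n
    have h0 : (T f - lam • f).incl = (T f).incl - lam • f.incl := rfl
    rw [h0, coef_sub, coef_add, coef_sub, coef_smul, coef_smul, coef_monomial]
    rcases lt_or_ge n 0 with hn | hn
    · rw [coef_incl_neg f hn, coef_incl_neg (T f) hn, coef_mul_symbol hφ hb hψ hbd f n]
      have h5 : n.toNat = 0 := by omega
      rw [h5]
      simp only [zero_add, Finset.range_one, Finset.sum_singleton, Nat.cast_zero, sub_zero]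
      rw [coef_incl_neg f hn]
      by_cases hn1 : n = -1
      · subst hn1; simp
      · rw [coef_incl_neg f (by omega), if_neg hn1]; simp
    · obtain ⟨k, rfl⟩ := Int.eq_ofNat_of_zero_le hn
      have h6 : coef (k : ℤ) (T f).incl = coef (k : ℤ) (mulFun ψ hψ f.incl) :=
        coef_toeplitz hψ f k
      rw [h6, if_neg (by omega)]
      simp
  have hnormsq : ∀ f : H2, ‖mulFun _ hψ' f.incl‖ ^ 2
      = ‖T f - lam • f‖ ^ 2 + ‖γ * coef 0 f.incl‖ ^ 2 := by
    intro f
    rw [hdecomp f]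
    exact norm_incl_add_monomial (T f - lam • f) (γ * coef 0 f.incl)
  -- control of `γ f(0)` by evaluating at `w`
  have hval : ∀ f : H2, ‖γ * coef 0 f.incl‖ ≤ ‖hardyShift.ev w‖ * ‖T f - lam • f‖ := by
    intro f
    have h1 := hT w hw1 f
    have h2 : w * hardyShift.ev w (T f - lam • f) = -(γ * coef 0 f.incl) := by
      rw [map_sub, map_smul, smul_eq_mul, mul_sub, h1]
      have h3 : γ + w * φ w = w * lam := by
        rw [hlam]; unfold symbolFun; field_simp
      have h4 : hardyShift.ev 0 f = coef 0 f.incl := hardyShift.ev_zero f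
      rw [h3, h4]; ring
    rw [← norm_neg, ← h2, norm_mul]
    have h5 := (hardyShift.ev w).le_opNorm (T f - lam • f)
    calc ‖w‖ * ‖hardyShift.ev w (T f - lam • f)‖
        ≤ 1 * ‖hardyShift.ev w (T f - lam • f)‖ := by gcongr
      _ ≤ _ := by rw [one_mul]; exact h5
  -- `lam - T` is bounded below
  set K : ℝ := Real.sqrt (1 + ‖hardyShift.ev w‖ ^ 2) with hK
  have hK0 : 0 < K := Real.sqrt_pos.2 (by positivity)
  have hKsq : K ^ 2 = 1 + ‖hardyShift.ev w‖ ^ 2 := Real.sq_sqrt (by positivity)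
  have hbelow : ∀ f : H2, δ * ‖f‖ ≤ K * ‖T f - lam • f‖ := by
    intro f
    have h1 := le_norm_mulFun hψ' hδ0.le hae f.incl
    rw [incl_norm] at h1
    have h2 : ‖mulFun _ hψ' f.incl‖ ^ 2 ≤ (K * ‖T f - lam • f‖) ^ 2 := by
      rw [hnormsq f, mul_pow, hKsq]
      have h3 := hval f
      have h4 : ‖γ * coef 0 f.incl‖ ^ 2 ≤ (‖hardyShift.ev w‖ * ‖T f - lam • f‖) ^ 2 := by gcongr
      nlinarith
    have h5 : ‖mulFun _ hψ' f.incl‖ ≤ K * ‖T f - lam • f‖ :=
      abs_le_of_sq_le_sq' h2 (by positivity) |>.2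
    exact h1.trans h5
  rw [spectrum.notMem_iff, ContinuousLinearMap.isUnit_iff_bijective,
    ContinuousLinearMap.bijective_iff_dense_range_and_antilipschitz]
  refine ⟨dense_range_of_hypercyclic hyp lam, ⟨Real.toNNReal (K / δ), ?_⟩⟩
  refine ContinuousLinearMap.antilipschitz_of_bound _ fun f => ?_
  rw [Real.coe_toNNReal _ (by positivity)]
  have h1 : (algebraMap ℂ (H2 →L[ℂ] H2) lam - T) f = -(T f - lam • f) := by
    simp [Algebra.algebraMap_eq_smul_one]
  rw [h1, norm_neg]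
  have h2 := hbelow f
  rw [div_mul_eq_mul_div, le_div_iff₀ hδ0]
  linarith

/-- **Main theorem.** -/
theorem main (γ : ℂ) (φ : ℂ → ℂ) (hφ : DifferentiableOn ℂ φ (ball 0 1))
    (hb : ∃ M : ℝ, ∀ z ∈ ball (0:ℂ) 1, ‖φ z‖ ≤ M) (ψ : UnitAddCircle → ℂ)
    (hψ : MemLp ψ ∞ haarAddCircle) (hbd : IsBoundaryFunction ψ (symbolFun γ φ))
    (hyp : IsHypercyclic (toeplitz ψ hψ)) :
    ball 0 1 ∩ spectrum ℂ (toeplitz ψ hψ) = ball 0 1 ∩ (symbolFun γ φ '' (ball 0 1 \ {0}))ᶜ ∧
      (ball 0 1 ∩ spectrum ℂ (toeplitz ψ hψ)).Nonempty := by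
  have hT := actsAs_toeplitz hφ hb hψ hbd
  have hγ := gamma_ne_zero hardyShift hT hyp
  constructor
  · congr 1
    ext lam
    constructor
    · rintro hlam ⟨w, hw, rfl⟩
      exact notMem_spectrum_of_value hφ hb hψ hbd hyp hw hlam
    · intro hlam
      by_contra hcon
      obtain ⟨μ, hμ1, hμ0, hμ2, -⟩ := exists_of_notMem_spectrum hardyShift hT hγ hcon
      exact hlam ⟨μ, ⟨by simpa using hμ1, by simpa using hμ0⟩, hμ2⟩
  · obtain ⟨lam, h1, h2⟩ := exists_mem_spectrum hardyShift hT hyp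
    exact ⟨lam, h1, h2⟩

end Pool.Agent.Lib.MP_895317_an
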